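import Mathlib.Analysis.SpecialFunctions.Exponential
import Mathlib.Analysis.SpecialFunctions.Log.Deriv
import Mathlib.Analysis.Asymptotics.Lemmas
import Pool.Agent.Lib.DR.Defs

set_option autoImplicit false

noncomputable section

open Set Filter Topology Asymptotics Pool.Agent.DR

namespace Pool.Agent.KZ

section defs

variable {A : Type} [NormedRing A] [NormedAlgebra ℝ A]

/-- The solution of `g' = (a / z + b / (z - 1)) g` with `g z ∼ z ^ a` at `0`. -/
def Sol (a b : A) (g : ℝ → A) : Prop :=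
  (∀ z ∈ Ioo (0 : ℝ) 1, HasDerivAt g ((z⁻¹ • a + (z - 1)⁻¹ • b) * g z) z) ∧
    (fun z => g z * NormedSpace.exp (-Real.log z • a) - 1) =O[𝓝[>] 0] fun z : ℝ => z

/-- `C` is the value of the associator at `(a, b)`. -/
def IsPhi (a b C : A) : Prop :=
  ∃ g₀ g₁ : ℝ → A, Sol a b g₀ ∧ Sol b a g₁ ∧ ∀ z ∈ Ioo (0 : ℝ) 1, g₀ z = g₁ (1 - z) * C

/-- Small elements. -/
def Sm (a : A) : Prop := ‖a‖ ≤ 1 / 64

/-- The truncated series. -/
def tr {B : Type} [Ring B] [Algebra ℝ B] (Φ : List Bool → ℝ) (N : ℕ) (a b : B) : B :=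
  ∑ n ∈ Finset.range (N + 1), ∑ u : List.Vector Bool n, Φ u.toList • wd a b u.toList

/-- Words of length more than `N` vanish. -/
def Nil {B : Type} [Ring B] (N : ℕ) (a b : B) : Prop := ∀ u : List Bool, N < u.length → wd a b u = 0

end defs

/-- Existence. -/
def St_EX : Prop := ∀ (A : Type) [NormedRing A] [NormedAlgebra ℝ A] [CompleteSpace A] (a b : A),
  Sm a → Sm b → ∃ C, IsPhi a b C

/-- Uniqueness. -/
def St_UQ : Prop := ∀ (A : Type) [NormedRing A] [NormedAlgebra ℝ A] [CompleteSpace A]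
  (a b C C' : A), Sm a → Sm b → IsPhi a b C → IsPhi a b C' → C = C'

/-- Duality. -/
def St_INV : Prop := ∀ (A : Type) [NormedRing A] [NormedAlgebra ℝ A] [CompleteSpace A]
  (a b C C' : A), Sm a → Sm b → IsPhi a b C → IsPhi b a C' → C * C' = 1

/-- Shift invariance. -/
def St_SHIFT : Prop := ∀ (A : Type) [NormedRing A] [NormedAlgebra ℝ A] [CompleteSpace A]
  (a b s C : A), Sm a → Sm b → Commute s a → Commute s b → IsPhi a b C →
    IsPhi (a + s) b C ∧ IsPhi a (b + s) C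

/-- Naturality. -/
def St_NAT : Prop := ∀ (A A' : Type) [NormedRing A] [NormedAlgebra ℝ A] [CompleteSpace A]
  [NormedRing A'] [NormedAlgebra ℝ A'] [CompleteSpace A'] (π : A →ₐ[ℝ] A') (a b C : A),
    Continuous π → IsPhi a b C → IsPhi (π a) (π b) (π C)

/-- The cyclic pentagon. -/
def St_PENT : Prop := ∀ (A : Type) [NormedRing A] [NormedAlgebra ℝ A] [CompleteSpace A]
  (a b d c e C₁ C₂ C₃ C₄ C₅ : A), Sm a → Sm b → Sm d → Sm c → Sm e →
    Commute a b → Commute b d → Commute d c → Commute c e → Commute e a →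
    (a * c - c * a) + (c * b - b * c) + (b * e - e * b) + (e * d - d * e) + (d * a - a * d) = 0 →
    IsPhi a d C₁ → IsPhi b c C₂ → IsPhi d e C₃ → IsPhi c a C₄ → IsPhi e b C₅ →
    C₅ * C₄ * C₃ * C₂ * C₁ = 1

/-- The coefficients of the associator. -/
def Univ (Φ : List Bool → ℝ) : Prop :=
  ∀ (N : ℕ) (A : Type) [NormedRing A] [NormedAlgebra ℝ A] [CompleteSpace A] (a b : A),
    Nil N a b → IsPhi a b (tr Φ N a b)

/-- Universal coefficients exist. -/
def St_UNIV : Prop := ∃ Φ : List Bool → ℝ, Φ [] = 1 ∧ Univ Φ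

/-- Transfer to the Drinfeld-Kohno algebra. -/
def St_TRANS : Prop := ∀ Φ : List Bool → ℝ, Univ Φ → Pentagon Φ

/-- The coefficients of depth one. -/
def St_SIGN : Prop := ∀ Φ : List Bool → ℝ, Univ Φ → ∀ k : ℕ,
  Φ (List.replicate (k + 1) false ++ [true]) < 0

/-- The result. -/
def St_KZ : Prop := ∃ Φ : List Bool → ℝ, Φ [] = 1 ∧ Pentagon Φ ∧ ∀ k : ℕ,
  Φ (List.replicate (k + 1) false ++ [true]) ≠ 0

theorem st_KZ_of (h1 : St_UNIV) (h2 : St_TRANS) (h3 : St_SIGN) : St_KZ :=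
  let ⟨Φ, a, b⟩ := h1
  ⟨Φ, a, h2 Φ b, fun k => (h3 Φ b k).ne⟩

end Pool.Agent.KZ
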