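import Mathlib.Analysis.ODE.Gronwall
import Mathlib.Analysis.SpecialFunctions.Sigmoid
import Pool.Agent.Lib.KZ.Blue

set_option autoImplicit false

noncomputable section

open Set Filter Topology Asymptotics

namespace Pool.Agent.KZ

namespace INV

variable {A : Type} [NormedRing A] [NormedAlgebra ℝ A] [CompleteSpace A]

theorem exp_neg_mul (x : A) : NormedSpace.exp (-x) * NormedSpace.exp x = 1 := by
  rw [← NormedSpace.exp_add_of_commute_of_mem_ball (𝕂 := ℝ) (Commute.refl x).neg_left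
    ((NormedSpace.expSeries_radius_eq_top ℝ A).symm ▸ edist_lt_top _ _)
    ((NormedSpace.expSeries_radius_eq_top ℝ A).symm ▸ edist_lt_top _ _), neg_add_cancel,
    NormedSpace.exp_zero]

theorem isUnit_exp (x : A) : IsUnit (NormedSpace.exp x) :=
  NormedSpace.isUnit_exp_of_mem_ball (𝕂 := ℝ)
    ((NormedSpace.expSeries_radius_eq_top ℝ A).symm ▸ edist_lt_top _ _)

theorem map_exp {A' : Type} [NormedRing A'] [NormedAlgebra ℝ A'] (π : A →ₐ[ℝ] A')
    (h : Continuous π) (x : A) : π (NormedSpace.exp x) = NormedSpace.exp (π x) :=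
  NormedSpace.map_exp_of_mem_ball (𝕂 := ℝ) π h x
    ((NormedSpace.expSeries_radius_eq_top ℝ A).symm ▸ edist_lt_top _ _)

omit [CompleteSpace A] in
/-- Gronwall on the line. -/
theorem gron {f f' : ℝ → A} {K : ℝ} (hf : ∀ t, HasDerivAt f (f' t) t)
    (hb : ∀ t, ‖f' t‖ ≤ K * ‖f t‖) {s t : ℝ} (h : s ≤ t) :
    ‖f t‖ ≤ ‖f s‖ * Real.exp (K * (t - s)) := by
  have := norm_le_gronwallBound_of_norm_deriv_right_le (f := f) (f' := f') (δ := ‖f s‖) (K := K)
    (ε := 0) (a := s) (b := t) (fun x _ => (hf x).continuousAt.continuousWithinAt)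
    (fun x _ => (hf x).hasDerivWithinAt) le_rfl (fun x _ => by rw [add_zero]; exact hb x) t
    ⟨h, le_rfl⟩
  rwa [gronwallBound_ε0] at this

theorem norm_mul_exp (k x : A) : ‖k * NormedSpace.exp x‖ ≤ ‖k‖ * Real.exp ‖x‖ := by
  have := gron (f := fun t : ℝ => k * NormedSpace.exp (t • x))
    (f' := fun t : ℝ => k * (NormedSpace.exp (t • x) * x)) (K := ‖x‖)
    (fun t => (hasDerivAt_exp_smul_const (𝕂 := ℝ) x t).const_mul k)
    (fun t => by rw [← mul_assoc, mul_comm ‖x‖]; exact norm_mul_le _ _) (s := 0) (t := 1)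
    zero_le_one
  simpa using this

/-- A solution that is small at the origin vanishes. -/
theorem zero_lemma {a b a' : A} (ha : ‖a‖ ≤ 1 / 4) (hb : ‖b‖ ≤ 1 / 4) (ha' : ‖a'‖ ≤ 1 / 4)
    {k : ℝ → A} (hk : ∀ z ∈ Ioo (0 : ℝ) 1, HasDerivAt k ((z⁻¹ • a + (z - 1)⁻¹ • b) * k z) z)
    (hO : (fun z => k z * NormedSpace.exp (-Real.log z • a')) =O[𝓝[>] 0] fun z : ℝ => z) :
    ∀ z ∈ Ioo (0 : ℝ) 1, k z = 0 := by
  intro z hz
  rw [← Real.range_sigmoid] at hz
  obtain ⟨t₀, rfl⟩ := hz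
  have hs : ∀ t, Real.sigmoid t ∈ Ioo (0 : ℝ) 1 := fun t =>
    ⟨Real.sigmoid_pos t, Real.sigmoid_lt_one t⟩
  have hd : ∀ t, HasDerivAt (fun t => k (Real.sigmoid t))
      (((1 - Real.sigmoid t) • a - Real.sigmoid t • b) * k (Real.sigmoid t)) t := by
    intro t
    have h1 := (hk _ (hs t)).scomp t (Real.hasDerivAt_sigmoid t)
    have h0 := (hs t).1.ne'
    have h2 : Real.sigmoid t - 1 ≠ 0 := sub_ne_zero.2 (hs t).2.ne
    have e : (Real.sigmoid t * (1 - Real.sigmoid t)) •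
        (((Real.sigmoid t)⁻¹ • a + (Real.sigmoid t - 1)⁻¹ • b) * k (Real.sigmoid t)) =
        ((1 - Real.sigmoid t) • a - Real.sigmoid t • b) * k (Real.sigmoid t) := by
      rw [← smul_mul_assoc, smul_add, smul_smul, smul_smul, sub_eq_add_neg (_ • a), ← neg_smul]
      congr 3
      · field_simp
      · field_simp
        ring
    rw [e] at h1
    exact h1
  have hbd : ∀ t, ‖((1 - Real.sigmoid t) • a - Real.sigmoid t • b) * k (Real.sigmoid t)‖ ≤
      1 / 4 * ‖k (Real.sigmoid t)‖ := by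
    intro t
    refine (norm_mul_le _ _).trans (mul_le_mul_of_nonneg_right ?_ (norm_nonneg _))
    refine (norm_sub_le _ _).trans ?_
    rw [norm_smul, norm_smul, Real.norm_of_nonneg (sub_nonneg.2 (hs t).2.le),
      Real.norm_of_nonneg (hs t).1.le]
    nlinarith [(hs t).1, (hs t).2]
  obtain ⟨C, hC0, hC⟩ := hO.exists_pos
  have ht : Tendsto Real.sigmoid atBot (𝓝[>] 0) :=
    tendsto_nhdsWithin_iff.2 ⟨Real.tendsto_sigmoid_atBot, Eventually.of_forall fun t => (hs t).1⟩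
  have hev := ht.eventually hC.bound
  have hlim : Tendsto (fun t : ℝ => C * Real.exp (t₀ / 4) * Real.exp (t / 2)) atBot
      (𝓝 (C * Real.exp (t₀ / 4) * 0)) :=
    (Real.tendsto_exp_atBot.comp (tendsto_id.atBot_div_const (by norm_num))).const_mul _
  rw [mul_zero] at hlim
  refine norm_le_zero_iff.1 (ge_of_tendsto hlim ?_)
  filter_upwards [hev, eventually_le_atBot t₀] with t h1 h2
  have hz0 := (hs t).1
  have hl : Real.log (Real.sigmoid t) ≤ t := by
    rw [Real.log_le_iff_le_exp hz0, Real.sigmoid_def, ← inv_inv (Real.exp t), ← Real.exp_neg]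
    exact inv_anti₀ (Real.exp_pos _) (by linarith)
  have hl0 : Real.log (Real.sigmoid t) ≤ 0 := Real.log_nonpos hz0.le (hs t).2.le
  have h3 : ‖k (Real.sigmoid t)‖ ≤ C * Real.exp (3 / 4 * t) := by
    have e : k (Real.sigmoid t) = k (Real.sigmoid t) *
        NormedSpace.exp (-Real.log (Real.sigmoid t) • a') *
        NormedSpace.exp (Real.log (Real.sigmoid t) • a') := by
      rw [mul_assoc, neg_smul, exp_neg_mul, mul_one]
    rw [e]
    refine (norm_mul_exp _ _).trans ?_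
    rw [Real.norm_of_nonneg hz0.le] at h1
    have h4 : Real.exp ‖Real.log (Real.sigmoid t) • a'‖ ≤
        Real.exp (-(Real.log (Real.sigmoid t)) / 4) := by
      rw [Real.exp_le_exp, norm_smul, Real.norm_of_nonpos hl0]
      nlinarith
    refine (mul_le_mul h1 h4 (Real.exp_pos _).le (by positivity)).trans ?_
    rw [mul_assoc]
    refine mul_le_mul_of_nonneg_left ?_ hC0.le
    nth_rewrite 1 [← Real.exp_log hz0]
    rw [← Real.exp_add, Real.exp_le_exp]
    linarith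
  refine (gron hd hbd h2).trans ?_
  refine (mul_le_mul_of_nonneg_right h3 (Real.exp_pos _).le).trans (le_of_eq ?_)
  rw [mul_assoc, mul_assoc, ← Real.exp_add, ← Real.exp_add]
  congr 2
  ring

/-- Uniqueness of the solution. -/
theorem sol_unique {a b : A} (ha : ‖a‖ ≤ 1 / 4) (hb : ‖b‖ ≤ 1 / 4) {g g' : ℝ → A}
    (h : Sol a b g) (h' : Sol a b g') : ∀ z ∈ Ioo (0 : ℝ) 1, g z = g' z := by
  intro z hz
  refine sub_eq_zero.1 (zero_lemma ha hb ha (k := fun z => g z - g' z) ?_ ?_ z hz)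
  · intro z hz
    rw [mul_sub]
    exact (h.1 z hz).sub (h'.1 z hz)
  · refine (h.2.sub h'.2).congr_left fun z => ?_
    rw [sub_mul, sub_sub_sub_cancel_right]

/-- A solution is invertible near the origin. -/
theorem eventually_unit {a b : A} {g : ℝ → A} (h : Sol a b g) :
    ∀ᶠ z in 𝓝[>] (0 : ℝ), IsUnit (g z) := by
  have h0 : Tendsto (fun z : ℝ => z) (𝓝[>] 0) (𝓝 0) := tendsto_id.mono_left nhdsWithin_le_nhds
  have h1 := (h.2.trans_tendsto h0).norm
  rw [norm_zero] at h1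
  filter_upwards [h1.eventually (gt_mem_nhds zero_lt_one)] with z hz
  rw [← norm_neg] at hz
  have hu := (Units.oneSub _ hz).isUnit
  rw [Units.val_oneSub, sub_neg_eq_add, add_sub_cancel] at hu
  have e : g z = g z * NormedSpace.exp (-Real.log z • a) * NormedSpace.exp (Real.log z • a) := by
    rw [mul_assoc, neg_smul, exp_neg_mul, mul_one]
  rw [e]
  exact hu.mul (isUnit_exp _)

theorem exists_unit {a b : A} {g : ℝ → A} (h : Sol a b g) :
    ∃ z ∈ Ioo (0 : ℝ) 1, IsUnit (g z) := by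
  obtain ⟨z, h1, h2⟩ := ((eventually_unit h).and (Ioo_mem_nhdsGT zero_lt_one)).exists
  exact ⟨z, h2, h1⟩

omit [NormedAlgebra ℝ A] [CompleteSpace A] in
theorem sm_le {a : A} (h : Sm a) : ‖a‖ ≤ 1 / 4 := le_trans h (by norm_num)

theorem Sol.map {A' : Type} [NormedRing A'] [NormedAlgebra ℝ A'] (π : A →ₐ[ℝ] A')
    (hπ : Continuous π) {a b : A} {g : ℝ → A} (h : Sol a b g) :
    Sol (π a) (π b) fun z => π (g z) := by
  let L : A →L[ℝ] A' := ⟨π.toLinearMap, hπ⟩
  refine ⟨fun z hz => ?_, ?_⟩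
  · have h1 := L.hasFDerivAt.comp_hasDerivAt z (h.1 z hz)
    have e : L ((z⁻¹ • a + (z - 1)⁻¹ • b) * g z) = (z⁻¹ • π a + (z - 1)⁻¹ • π b) * π (g z) := by
      change π _ = _
      rw [map_mul, map_add, map_smul, map_smul]
    rw [e] at h1
    exact h1
  · refine ((L.isBigO_comp _ _).trans h.2).congr_left fun z => ?_
    change π _ = _
    rw [map_sub, map_mul, map_one, map_exp π hπ, map_smul]

end INV

open INV

theorem st_NAT : St_NAT := by
  intro A A' _ _ _ _ _ _ π a b C hπ h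
  obtain ⟨g₀, g₁, h₀, h₁, e⟩ := h
  exact ⟨_, _, INV.Sol.map π hπ h₀, INV.Sol.map π hπ h₁, fun z hz => by rw [e z hz, map_mul]⟩

theorem st_INV : St_INV := by
  intro A _ _ _ a b C C' ha hb h h'
  obtain ⟨g₀, g₁, h₀, h₁, e⟩ := h
  obtain ⟨k₀, k₁, l₀, l₁, e'⟩ := h'
  obtain ⟨z, hz, hu⟩ := exists_unit l₀
  have hz' : 1 - z ∈ Ioo (0 : ℝ) 1 := ⟨sub_pos.2 hz.2, sub_lt_self _ hz.1⟩
  refine hu.mul_left_cancel ?_
  have h1 := e' z hz
  rw [sol_unique (sm_le ha) (sm_le hb) l₁ h₀ _ hz', e _ hz', sub_sub_cancel,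
    sol_unique (sm_le hb) (sm_le ha) h₁ l₀ _ hz] at h1
  rw [mul_one, ← mul_assoc, ← h1]

theorem st_UQ' : St_UQ := by
  intro A _ _ _ a b C C' ha hb h h'
  obtain ⟨g₀, g₁, h₀, h₁, e⟩ := h
  obtain ⟨k₀, k₁, l₀, l₁, e'⟩ := h'
  obtain ⟨z, hz, hu⟩ := exists_unit h₁
  have hz' : 1 - z ∈ Ioo (0 : ℝ) 1 := ⟨sub_pos.2 hz.2, sub_lt_self _ hz.1⟩
  refine hu.mul_left_cancel ?_
  have h1 := e _ hz'
  have h2 := e' _ hz'
  rw [sub_sub_cancel] at h1 h2
  rw [← h1, sol_unique (sm_le ha) (sm_le hb) h₀ l₀ _ hz', h2,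
    sol_unique (sm_le hb) (sm_le ha) h₁ l₁ _ hz]

end Pool.Agent.KZ
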