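import Pool.Agent.Lib.KZ.B_INV

set_option autoImplicit false

noncomputable section

open Set Filter Topology Asymptotics

namespace Pool.Agent.KZ

namespace SH

open INV

variable {A : Type} [NormedRing A] [NormedAlgebra ℝ A] [CompleteSpace A]

theorem exp_add {x y : A} (h : Commute x y) :
    NormedSpace.exp (x + y) = NormedSpace.exp x * NormedSpace.exp y :=
  NormedSpace.exp_add_of_commute_of_mem_ball (𝕂 := ℝ) h
    ((NormedSpace.expSeries_radius_eq_top ℝ A).symm ▸ edist_lt_top _ _)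
    ((NormedSpace.expSeries_radius_eq_top ℝ A).symm ▸ edist_lt_top _ _)

omit [CompleteSpace A] in
theorem comm_exp {x s : A} (h : Commute x s) (t : ℝ) : Commute x (NormedSpace.exp (t • s)) :=
  (h.smul_right t).exp_right

/-- A solution commutes with everything that commutes with the coefficients. -/
theorem comm_sol {a b s : A} (ha : ‖a‖ ≤ 1 / 4) (hb : ‖b‖ ≤ 1 / 4) (h1 : Commute s a)
    (h2 : Commute s b) {g : ℝ → A} (h : Sol a b g) : ∀ z ∈ Ioo (0 : ℝ) 1, Commute s (g z) := by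
  intro z hz
  refine sub_eq_zero.1 (zero_lemma ha hb ha (k := fun z => s * g z - g z * s) ?_ ?_ z hz)
  · intro z hz
    have hc : Commute s (z⁻¹ • a + (z - 1)⁻¹ • b) := (h1.smul_right _).add_right (h2.smul_right _)
    have h3 := ((h.1 z hz).const_mul s).sub ((h.1 z hz).mul_const s)
    rw [← mul_assoc, hc.eq, mul_assoc, mul_assoc, ← mul_sub] at h3
    exact h3
  · have h3 := (isBigO_const_mul_self s _ _).trans h.2
    have h4 : (fun z => (g z * NormedSpace.exp (-Real.log z • a) - 1) * s) =O[𝓝[>] 0]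
        fun z : ℝ => z := by
      refine IsBigO.trans (IsBigO.of_bound ‖s‖ (Eventually.of_forall fun z => ?_)) h.2
      rw [mul_comm ‖s‖]
      exact norm_mul_le _ _
    refine (h3.sub h4).congr_left fun z => ?_
    have e := (comm_exp h1 (-Real.log z)).eq
    rw [sub_mul, sub_mul, mul_sub, mul_one, one_mul, mul_assoc (g z) s, e, mul_assoc, mul_assoc]
    abel

theorem deriv_exp {s : A} {l : ℝ → ℝ} {l' z : ℝ} (hl : HasDerivAt l l' z) :
    HasDerivAt (fun z => NormedSpace.exp (l z • s)) (l' • (s * NormedSpace.exp (l z • s))) z :=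
  (hasDerivAt_exp_smul_const' (𝕂 := ℝ) s (l z)).scomp z hl

theorem deriv_log {z : ℝ} (hz : z < 1) :
    HasDerivAt (fun z : ℝ => Real.log (1 - z)) (z - 1)⁻¹ z := by
  have h := ((hasDerivAt_id z).const_sub 1).log (sub_pos.2 hz).ne'
  have e : (-1 : ℝ) / (1 - id z) = (z - 1)⁻¹ := by
    rw [id, ← neg_sub z 1, neg_div_neg_eq, one_div]
  rw [e] at h
  exact h

theorem sol_left {a b s : A} (h1 : Commute s a) {g : ℝ → A} (h : Sol a b g)
    (hc : ∀ z ∈ Ioo (0 : ℝ) 1, Commute s (g z)) :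
    Sol (a + s) b fun z => g z * NormedSpace.exp (Real.log z • s) := by
  refine ⟨fun z hz => ?_, h.2.congr_left fun z => ?_⟩
  · have h3 := (h.1 z hz).mul (deriv_exp (s := s) (Real.hasDerivAt_log hz.1.ne'))
    refine h3.congr_deriv ?_
    rw [mul_smul_comm, ← mul_assoc (g z), ← (hc z hz).eq, smul_add, add_right_comm, add_mul _ (_ • s),
      smul_mul_assoc, mul_assoc, mul_assoc]
  · have hx : Commute (Real.log z • s) (-Real.log z • (a + s)) :=
      ((h1.add_right (Commute.refl s)).smul_left _).smul_right _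
    rw [mul_assoc, ← exp_add hx]
    congr 3
    rw [smul_add, neg_smul, neg_smul]
    abel

theorem sol_right {a b s : A} (h1 : Commute s a) {g : ℝ → A} (h : Sol a b g)
    (hc : ∀ z ∈ Ioo (0 : ℝ) 1, Commute s (g z)) :
    Sol a (b + s) fun z => g z * NormedSpace.exp (Real.log (1 - z) • s) := by
  refine ⟨fun z hz => ?_, ?_⟩
  · have h3 := (h.1 z hz).mul (deriv_exp (s := s) (deriv_log hz.2))
    refine h3.congr_deriv ?_
    rw [mul_smul_comm, ← mul_assoc (g z), ← (hc z hz).eq, smul_add, ← add_assoc, add_mul _ (_ • s),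
      smul_mul_assoc, mul_assoc, mul_assoc]
  · have hd := deriv_exp (s := s) (deriv_log (z := 0) zero_lt_one)
    have h3 : (fun z : ℝ => NormedSpace.exp (Real.log (1 - z) • s) - 1) =O[𝓝[>] 0]
        fun z : ℝ => z := by
      have h4 := hd.isBigO_sub.mono (nhdsWithin_le_nhds (s := Ioi 0))
      simpa using h4
    have h5 : (fun z : ℝ => NormedSpace.exp (Real.log (1 - z) • s)) =O[𝓝[>] 0]
        fun _ : ℝ => (1 : ℝ) :=
      (hd.continuousAt.tendsto.mono_left nhdsWithin_le_nhds).isBigO_one ℝ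
    have h6 := (h.2.mul h5).add (h3.congr_right fun z => (mul_one z).symm)
    refine (h6.congr_right fun z => mul_one z).congr_left fun z => ?_
    have e := (comm_exp (comm_exp h1 (-Real.log z)).symm (Real.log (1 - z))).eq
    rw [sub_mul, one_mul, mul_assoc, e, ← mul_assoc]
    abel

end SH

open INV SH

theorem st_SHIFT : St_SHIFT := by
  intro A _ _ _ a b s C ha hb h1 h2 h
  obtain ⟨g₀, g₁, h₀, h₁, e⟩ := h
  have c₀ := comm_sol (sm_le ha) (sm_le hb) h1 h2 h₀
  have c₁ := comm_sol (sm_le hb) (sm_le ha) h2 h1 h₁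
  have hC : Commute C s := by
    obtain ⟨z, hz, hu⟩ := exists_unit h₁
    have hz' : 1 - z ∈ Ioo (0 : ℝ) 1 := ⟨sub_pos.2 hz.2, sub_lt_self _ hz.1⟩
    have h3 := e _ hz'
    rw [sub_sub_cancel] at h3
    refine hu.mul_left_cancel ?_
    rw [← mul_assoc, ← h3, ← (c₀ _ hz').eq, h3, ← mul_assoc, (c₁ z hz).eq, mul_assoc]
  refine ⟨⟨_, _, sol_left h1 h₀ c₀, sol_right h2 h₁ c₁, fun z hz => ?_⟩,
    ⟨_, _, sol_right h1 h₀ c₀, sol_left h2 h₁ c₁, fun z hz => ?_⟩⟩
  · rw [e z hz, sub_sub_cancel, mul_assoc, mul_assoc, (comm_exp hC _).eq]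
  · rw [e z hz, mul_assoc, mul_assoc, (comm_exp hC _).eq]

end Pool.Agent.KZ
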