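import Mathlib.Analysis.Calculus.SmoothSeries
import Mathlib.Analysis.Calculus.Deriv.Pow
import Mathlib.Analysis.Calculus.Deriv.Prod
import Mathlib.Analysis.Calculus.FDeriv.Pow
import Mathlib.Analysis.SpecificLimits.Normed
import Mathlib.Analysis.Normed.Ring.InfiniteSum
import Mathlib.Analysis.Normed.Operator.Prod
import Mathlib.Tactic.Module

set_option autoImplicit false

noncomputable section

namespace Pool.Agent.KZ.H64

open Finset

variable {A : Type} [NormedRing A] [NormedAlgebra ℝ A]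

/-- Multiplication of a double series by `x / (1 - x)`. -/
def al (c : ℕ → ℕ → A) (m n : ℕ) : A := ∑ j ∈ range m, c j n

/-- Multiplication of a double series by `y / (1 - y)`. -/
def be (c : ℕ → ℕ → A) (m n : ℕ) : A := ∑ j ∈ range n, c m j

/-- Multiplication of a double series by `x y / (1 - x y)`. -/
def ga (c : ℕ → ℕ → A) (m n : ℕ) : A := ∑ j ∈ range (min m n), c (m - 1 - j) (n - 1 - j)

omit [NormedAlgebra ℝ A] in
lemma ga_succ (c : ℕ → ℕ → A) (m n : ℕ) : ga c (m + 1) (n + 1) = c m n + ga c m n := by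
  unfold ga
  rw [Nat.succ_min_succ, sum_range_succ', add_comm]
  refine congrArg₂ _ (by simp) (sum_congr rfl fun j _ => congrArg₂ c (by omega) (by omega))

omit [NormedAlgebra ℝ A] in
lemma ga_ext {c d : ℕ → ℕ → A} (h0 : ∀ n, d 0 n = 0) (h1 : ∀ m, d m 0 = 0)
    (h : ∀ m n, d (m + 1) (n + 1) = c m n + d m n) (m n : ℕ) : ga c m n = d m n := by
  induction m generalizing n with
  | zero => simp [ga, h0]
  | succ m ih =>
    cases n with
    | zero => simp [ga, h1]
    | succ n => rw [ga_succ, h, ih]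

omit [NormedAlgebra ℝ A] in
lemma ga_al (c : ℕ → ℕ → A) (m n : ℕ) : ga (al c) m n = al (ga c) m n := by
  refine ga_ext (d := al (ga c)) (fun n => by simp [al]) (fun m => by simp [al, ga]) (fun m n => ?_) m n
  unfold al
  rw [sum_range_succ']
  simp only [ga_succ, sum_add_distrib]
  simp [ga]

omit [NormedAlgebra ℝ A] in
lemma ga_be (c : ℕ → ℕ → A) (m n : ℕ) : ga (be c) m n = be (ga c) m n := by
  refine ga_ext (d := be (ga c)) (fun n => by simp [be, ga]) (fun m => by simp [be]) (fun m n => ?_) m n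
  unfold be
  rw [sum_range_succ']
  simp only [ga_succ, sum_add_distrib]
  simp [ga]

omit [NormedAlgebra ℝ A] in
lemma be_al (c : ℕ → ℕ → A) (m n : ℕ) : be (al c) m n = al (be c) m n := sum_comm

omit [NormedAlgebra ℝ A] in
lemma al_be (c : ℕ → ℕ → A) (m n : ℕ) :
    al (be c) m n = ga c m n + al (ga c) m n + be (ga c) m n := by
  rw [← ga_al, ← ga_be]
  have := ga_ext (c := fun m n => c m n + al c m n + be c m n) (d := al (be c))
    (fun n => by simp [al]) (fun m => by simp [al, be]) (fun m n => by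
      simp only [al, be, sum_range_succ, sum_add_distrib]; abel) m n
  rw [← this]
  simp [ga, sum_add_distrib]

lemma ga_th (c : ℕ → ℕ → A) (m n : ℕ) : ga (fun m n => (n : ℝ) • c m n) m n =
    ga (fun m n => (m : ℝ) • c m n) m n + (n : ℝ) • ga c m n - (m : ℝ) • ga c m n := by
  have := ga_ext (c := fun m n => (n : ℝ) • c m n - (m : ℝ) • c m n)
    (d := fun m n => (n : ℝ) • ga c m n - (m : ℝ) • ga c m n)
    (fun n => by simp [ga]) (fun m => by simp [ga]) (fun m n => by
      simp only [ga_succ]; push_cast; module) m n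
  rw [add_sub_assoc, ← this]
  simp [ga, sum_sub_distrib]

/-- The first operator. -/
def P (a d f : A) (c : ℕ → ℕ → A) (m n : ℕ) : A :=
  (m : ℝ) • c m n - a * c m n + c m n * a + d * al c m n + f * ga c m n

/-- The second operator. -/
def Q (b e f : A) (c : ℕ → ℕ → A) (m n : ℕ) : A :=
  (n : ℝ) • c m n - b * c m n + c m n * b + e * be c m n + f * ga c m n

lemma PQ {a b d e f : A} (h1 : Commute a b) (h2 : Commute a e) (h3 : Commute d b)
    (h4 : Commute d (e + f)) (h5 : Commute (d + f) e)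
    (h6 : (b - a) * f - f * (b - a) + (d * e - e * d) = 0) (c : ℕ → ℕ → A) (m n : ℕ) :
    P a d f (Q b e f c) m n = Q b e f (P a d f c) m n := by
  have e1 : al (Q b e f c) m n = (n : ℝ) • al c m n - b * al c m n + al c m n * b +
      e * al (be c) m n + f * al (ga c) m n := by
    simp only [al, Q, sum_add_distrib, sum_sub_distrib, smul_sum, mul_sum, sum_mul]
  have e2 : be (P a d f c) m n = (m : ℝ) • be c m n - a * be c m n + be c m n * a +
      d * be (al c) m n + f * be (ga c) m n := by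
    simp only [be, P, sum_add_distrib, sum_sub_distrib, smul_sum, mul_sum, sum_mul]
  have e3 : ga (Q b e f c) m n = ga (fun m n => (n : ℝ) • c m n) m n - b * ga c m n +
      ga c m n * b + e * ga (be c) m n + f * ga (ga c) m n := by
    simp only [ga.eq_1 (Q b e f c), ga.eq_1 c m n, ga.eq_1 (be c), ga.eq_1 (ga c),
      ga.eq_1 (fun m n => (n : ℝ) • c m n), Q, sum_add_distrib, sum_sub_distrib, mul_sum, sum_mul]
  have e4 : ga (P a d f c) m n = ga (fun m n => (m : ℝ) • c m n) m n - a * ga c m n +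
      ga c m n * a + d * ga (al c) m n + f * ga (ga c) m n := by
    simp only [ga.eq_1 (P a d f c), ga.eq_1 c m n, ga.eq_1 (al c), ga.eq_1 (ga c),
      ga.eq_1 (fun m n => (m : ℝ) • c m n), P, sum_add_distrib, sum_sub_distrib, mul_sum, sum_mul]
  rw [P, Q, Q, P, e1, e2, e3, e4, ga_th, be_al, ga_al, ga_be, al_be]
  linear_combination (norm := skip) h1.eq * c m n - c m n * h1.eq - h2.eq * be c m n -
    h3.eq * al c m n + h4.eq * al (ga c) m n + h5.eq * be (ga c) m n + h6 * ga c m n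
  simp only [mul_add, add_mul, mul_sub, sub_mul, smul_add, smul_sub, smul_mul_assoc, mul_smul_comm,
    mul_assoc, zero_mul]
  module

lemma P_add (a d f : A) (c c' : ℕ → ℕ → A) (m n : ℕ) :
    P a d f (fun m n => c m n + c' m n) m n = P a d f c m n + P a d f c' m n := by
  simp only [P, al, ga, sum_add_distrib, mul_add, add_mul, smul_add]; abel

lemma uniq {a b d e f : A} (ha : ‖a‖ ≤ 1 / 16) (hb : ‖b‖ ≤ 1 / 16) {c : ℕ → ℕ → A}
    (h0 : c 0 0 = 0) (h : ∀ m n, P a d f c m n + Q b e f c m n = 0) (m n : ℕ) : c m n = 0 := by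
  induction hN : m + n using Nat.strong_induction_on generalizing m n with
  | _ N ih =>
    rcases Nat.eq_zero_or_pos N with rfl | hp
    · obtain ⟨rfl, rfl⟩ : m = 0 ∧ n = 0 := by omega
      exact h0
    have e1 : al c m n = 0 := sum_eq_zero fun j hj => ih _ (by have := mem_range.1 hj; omega) _ _ rfl
    have e2 : be c m n = 0 := sum_eq_zero fun j hj => ih _ (by have := mem_range.1 hj; omega) _ _ rfl
    have e3 : ga c m n = 0 := sum_eq_zero fun j hj => ih _ (by have := mem_range.1 hj; omega) _ _ rfl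
    have e4 : (N : ℝ) • c m n = a * c m n - c m n * a + (b * c m n - c m n * b) := by
      have := h m n
      rw [P, Q, e1, e2, e3] at this
      rw [← hN]; push_cast
      linear_combination (norm := skip) this
      simp only [mul_zero]; module
    have e5 := congrArg norm e4
    rw [norm_smul, Real.norm_natCast] at e5
    have e6 := norm_add_le (a * c m n - c m n * a) (b * c m n - c m n * b)
    have e7 := norm_sub_le (a * c m n) (c m n * a)
    have e8 := norm_sub_le (b * c m n) (c m n * b)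
    have hp' : (1 : ℝ) ≤ N := by exact_mod_cast hp
    have := norm_nonneg (c m n)
    refine norm_le_zero_iff.1 ?_
    nlinarith [norm_mul_le a (c m n), norm_mul_le (c m n) a, norm_mul_le b (c m n),
      norm_mul_le (c m n) b]

omit [NormedAlgebra ℝ A] in
lemma sum_bd {K : ℝ} (k : ℕ) {g : ℕ → A} (h : ∀ j, ‖g j‖ ≤ K) : ‖∑ j ∈ range k, g j‖ ≤ k * K := by
  simpa using norm_sum_le_of_le (range k) fun j _ => h j

/-- The contraction whose fixed point is the flat series. -/
def T (a b d e f : A) : (ℕ → ℕ → A) →+ (ℕ → ℕ → A) :=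
  AddMonoidHom.mk' (fun c m n => ((m : ℝ) + n)⁻¹ • (a * c m n - c m n * a + (b * c m n - c m n * b) -
    d * al c m n - e * be c m n - f * ga c m n - f * ga c m n)) fun c c' => by
    funext m n
    simp only [Pi.add_apply, al, be, ga, sum_add_distrib, mul_add, add_mul]
    module

lemma T_bd {a b d e f : A} (ha : ‖a‖ ≤ 1 / 16) (hb : ‖b‖ ≤ 1 / 16) (hd : ‖d‖ ≤ 1 / 16)
    (he : ‖e‖ ≤ 1 / 16) (hf : ‖f‖ ≤ 1 / 16) {c : ℕ → ℕ → A} {K : ℝ} (h : ∀ m n, ‖c m n‖ ≤ K)
    (m n : ℕ) : ‖T a b d e f c m n‖ ≤ K / 2 := by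
  have hK := (norm_nonneg _).trans (h 0 0)
  change ‖((m : ℝ) + n)⁻¹ • (_ : A)‖ ≤ _
  rcases Nat.eq_zero_or_pos (m + n) with h0 | hp
  · obtain ⟨rfl, rfl⟩ : m = 0 ∧ n = 0 := by omega
    simp; positivity
  have hp' : (1 : ℝ) ≤ m + n := by exact_mod_cast hp
  have l : ∀ {u v : A} {s : ℝ}, ‖u‖ ≤ 1 / 16 → ‖v‖ ≤ s → ‖u * v‖ ≤ s / 16 := fun {u v s} hu hv =>
    (norm_mul_le _ _).trans (by nlinarith [norm_nonneg u, norm_nonneg v])
  have r : ∀ {u v : A} {s : ℝ}, ‖u‖ ≤ 1 / 16 → ‖v‖ ≤ s → ‖v * u‖ ≤ s / 16 := fun {u v s} hu hv =>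
    (norm_mul_le _ _).trans (by nlinarith [norm_nonneg u, norm_nonneg v])
  have g : ‖ga c m n‖ ≤ (min m n : ℕ) * K := sum_bd _ fun j => h _ _
  have g1 : ‖ga c m n‖ ≤ m * K := g.trans (by gcongr; exact min_le_left _ _)
  have g2 : ‖ga c m n‖ ≤ n * K := g.trans (by gcongr; exact min_le_right _ _)
  have := norm_sub_le_of_le (norm_sub_le_of_le (norm_sub_le_of_le (norm_sub_le_of_le
    (norm_add_le_of_le (norm_sub_le_of_le (l ha (h m n)) (r ha (h m n)))
      (norm_sub_le_of_le (l hb (h m n)) (r hb (h m n))))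
    (l hd (sum_bd m fun j => h j n))) (l he (sum_bd n fun j => h m j))) (l hf g1)) (l hf g2)
  rw [norm_smul, norm_inv, Real.norm_of_nonneg (by positivity), inv_mul_le_iff₀ (by positivity)]
  refine this.trans ?_
  nlinarith

variable [CompleteSpace A]

lemma exists_coef {a b d e f : A} (h1 : Commute a b) (h2 : Commute a e) (h3 : Commute d b)
    (h4 : Commute d (e + f)) (h5 : Commute (d + f) e)
    (h6 : (b - a) * f - f * (b - a) + (d * e - e * d) = 0) (ha : ‖a‖ ≤ 1 / 16)
    (hb : ‖b‖ ≤ 1 / 16) (hd : ‖d‖ ≤ 1 / 16) (he : ‖e‖ ≤ 1 / 16) (hf : ‖f‖ ≤ 1 / 16) :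
    ∃ (c : ℕ → ℕ → A) (K : ℝ), c 0 0 = 1 ∧ (∀ m n, ‖c m n‖ ≤ K) ∧ (∀ m n, P a d f c m n = 0) ∧
      ∀ m n, Q b e f c m n = 0 := by
  let δ : ℕ → ℕ → A := fun m n => if m + n = 0 then 1 else 0
  have b1 : ∀ k m n, ‖(T a b d e f)^[k] δ m n‖ ≤ ‖(1 : A)‖ * (1 / 2) ^ k := fun k => by
    induction k with
    | zero => intro m n; simp only [δ, Function.iterate_zero, id]; split_ifs <;> simp
    | succ k ih =>
      intro m n
      rw [Function.iterate_succ_apply']
      exact (T_bd ha hb hd he hf ih m n).trans_eq (by ring)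
  have g : HasSum (fun k : ℕ => ‖(1 : A)‖ * (1 / 2 : ℝ) ^ k) (‖(1 : A)‖ * 2) :=
    hasSum_geometric_two.mul_left _
  let c : ℕ → ℕ → A := fun m n => ∑' k, (T a b d e f)^[k] δ m n
  have s1 : HasSum (fun k => (T a b d e f)^[k] δ) c := Pi.hasSum.2 fun m => Pi.hasSum.2 fun n =>
    (Summable.of_norm_bounded g.summable fun k => b1 k m n).hasSum
  have ct : Continuous (T a b d e f) := by
    refine continuous_pi fun m => continuous_pi fun n => ?_
    simp only [T, AddMonoidHom.mk'_apply, al, be, ga]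
    fun_prop
  have s2 : HasSum (fun k => (T a b d e f)^[k + 1] δ) (T a b d e f c) := by
    simpa only [Function.iterate_succ_apply', Function.comp_def] using s1.map _ ct
  have s3 : c = T a b d e f c + δ := by
    simpa using s1.unique ((hasSum_nat_add_iff 1).1 s2)
  have c0 : c 0 0 = 1 := by rw [s3]; simp [T, δ]
  have s4 : ∀ m n, P a d f c m n + Q b e f c m n = 0 := fun m n => by
    rcases Nat.eq_zero_or_pos (m + n) with h0 | hp
    · obtain ⟨rfl, rfl⟩ : m = 0 ∧ n = 0 := by omega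
      simp [P, Q, al, be, ga, c0]
    have hp' : (m : ℝ) + n ≠ 0 := by exact_mod_cast hp.ne'
    have := congrArg (fun u => ((m : ℝ) + n) • u m n) s3
    simp only [Pi.add_apply, δ, if_neg hp.ne', add_zero, T, AddMonoidHom.mk'_apply,
      smul_inv_smul₀ hp'] at this
    rw [P, Q]
    linear_combination (norm := module) this
  have s5 : ∀ m n, P a d f c m n = 0 := uniq (d := d) (e := e) (f := f) ha hb
    (by simp [P, al, ga, c0]) fun m n => by
      rw [← PQ h1 h2 h3 h4 h5 h6, ← P_add]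
      simp [s4, P.eq_1 a d f fun _ _ => 0, al, ga]
  exact ⟨c, _, c0, fun m n => tsum_of_norm_bounded g fun k => b1 k m n, s5,
    fun m n => by simpa [s5] using s4 m n⟩

/-- The general term of a double series. -/
def tm (c : ℕ → ℕ → A) (x y : ℝ) (p : ℕ × ℕ) : A := (x ^ p.1 * y ^ p.2) • c p.1 p.2

lemma sm_maj {r s : ℝ} (hr : |r| < 1) (hs : |s| < 1) (K : ℝ) :
    Summable fun p : ℕ × ℕ => K * ((((p.1 : ℝ) + 1) * |r| ^ p.1) * (((p.2 : ℝ) + 1) * |s| ^ p.2)) := by
  have : ∀ {r : ℝ}, |r| < 1 → Summable fun n : ℕ => ((n : ℝ) + 1) * |r| ^ n := fun {r} hr => by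
    have h : ‖|r|‖ < 1 := by simpa using hr
    simpa [add_mul] using
      (summable_pow_mul_geometric_of_norm_lt_one 1 h).add (summable_geometric_of_norm_lt_one h)
  exact ((this hr).mul_of_nonneg (this hs) (fun _ => by positivity) fun _ => by positivity).mul_left K

lemma sm {c : ℕ → ℕ → A} {K x y : ℝ} (h : ∀ m n, ‖c m n‖ ≤ K * ((m + 1) * (n + 1)))
    (hx : |x| < 1) (hy : |y| < 1) : Summable (tm c x y) :=
  Summable.of_norm_bounded (sm_maj hx hy K) fun p => by
    rw [tm, norm_smul, norm_mul, norm_pow, norm_pow, Real.norm_eq_abs, Real.norm_eq_abs]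
    exact (mul_le_mul_of_nonneg_left (h _ _) (by positivity)).trans_eq (by ring)

omit [CompleteSpace A] in
lemma shift {c g : ℕ → ℕ → A} {x y : ℝ} {s : A} (i j : ℕ) (h0 : ∀ m n, m < i ∨ n < j → c m n = 0)
    (h : ∀ m n, c (m + i) (n + j) = g m n) (hs : HasSum (tm g x y) s) :
    HasSum (tm c x y) ((x ^ i * y ^ j) • s) := by
  have inj : Function.Injective fun p : ℕ × ℕ => (p.1 + i, p.2 + j) := fun p q e => by
    simp only [Prod.mk.injEq] at e
    exact Prod.ext (by omega) (by omega)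
  refine (inj.hasSum_iff fun p hp => ?_).1 ((hs.const_smul (x ^ i * y ^ j)).congr_fun fun p => ?_)
  · rw [tm, h0, smul_zero]
    by_contra hc
    exact hp ⟨(p.1 - i, p.2 - j), Prod.ext (by dsimp only; omega) (by dsimp only; omega)⟩
  · simp only [tm, Function.comp_apply, h, smul_smul]
    exact congrArg (· • _) (by ring)

lemma geo {c g : ℕ → ℕ → A} {K x y : ℝ} {s : A} (i j : ℕ) (h0 : ∀ m n, m < i ∨ n < j → g m n = 0)
    (h : ∀ m n, g (m + i) (n + j) = c m n + g m n) (hs : HasSum (tm c x y) s)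
    (hb : ∀ m n, ‖g m n‖ ≤ K * ((m + 1) * (n + 1))) (hx : |x| < 1) (hy : |y| < 1)
    (hu : 1 - x ^ i * y ^ j ≠ 0) :
    HasSum (tm g x y) ((x ^ i * y ^ j / (1 - x ^ i * y ^ j)) • s) := by
  have s1 := (sm hb hx hy).hasSum
  have s2 := s1.unique (shift (g := fun m n => c m n + g m n) i j h0 h
    ((hs.add s1).congr_fun fun p => by simp [tm]))
  have : ∑' p, tm g x y p = (x ^ i * y ^ j / (1 - x ^ i * y ^ j)) • s := by
    rw [div_eq_inv_mul, mul_smul, eq_inv_smul_iff₀ hu]
    linear_combination (norm := module) s2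
  exact this ▸ s1

/-- The derivative of the general term. -/
def dt (c : ℕ → ℕ → A) (p : ℕ × ℕ) (z : ℝ × ℝ) : ℝ × ℝ →L[ℝ] A :=
  ((p.1 * z.1 ^ (p.1 - 1) * z.2 ^ p.2) • ContinuousLinearMap.fst ℝ ℝ ℝ +
    (z.1 ^ p.1 * (p.2 * z.2 ^ (p.2 - 1))) • ContinuousLinearMap.snd ℝ ℝ ℝ).smulRight (c p.1 p.2)

lemma pw {r u : ℝ} (hr : 0 < r) (hu : |u| ≤ r) (m : ℕ) :
    |(m : ℝ) * u ^ (m - 1)| ≤ r⁻¹ * ((m + 1) * r ^ m) := by
  cases m with
  | zero => simp; positivity
  | succ m =>
    rw [abs_mul, abs_pow, Nat.abs_cast, Nat.add_sub_cancel, pow_succ]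
    have := pow_le_pow_left₀ (abs_nonneg u) hu m
    have h2 : 0 ≤ |u| ^ m := by positivity
    field_simp
    push_cast
    nlinarith [(m.cast_nonneg : (0 : ℝ) ≤ m)]

lemma fder {c : ℕ → ℕ → A} {K : ℝ} (h : ∀ m n, ‖c m n‖ ≤ K) {x y : ℝ} (hx : |x| < 1)
    (hy : |y| < 1) : Summable (fun p => dt c p (x, y)) ∧
      HasFDerivAt (fun z : ℝ × ℝ => ∑' p, tm c z.1 z.2 p) (∑' p, dt c p (x, y)) (x, y) := by
  have hK := (norm_nonneg _).trans (h 0 0)
  obtain ⟨r, hr, hr1⟩ := exists_between (max_lt hx hy)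
  have r0 : 0 < r := ((abs_nonneg x).trans (le_max_left _ _)).trans_lt hr
  have ra : |r| = r := abs_of_pos r0
  have hz : (x, y) ∈ Metric.ball (0 : ℝ × ℝ) r := by simpa [Prod.norm_def] using hr
  have bd : ∀ p z, z ∈ Metric.ball (0 : ℝ × ℝ) r → ‖dt c p z‖ ≤ (2 * r⁻¹ * K) *
      ((((p.1 : ℝ) + 1) * |r| ^ p.1) * (((p.2 : ℝ) + 1) * |r| ^ p.2)) := fun p z hz => by
    rw [mem_ball_zero_iff, Prod.norm_def, max_lt_iff, Real.norm_eq_abs, Real.norm_eq_abs] at hz
    rw [dt, ContinuousLinearMap.norm_smulRight_apply, ra]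
    have p1 : ∀ {u : ℝ}, |u| < r → ∀ m : ℕ, |u ^ m| ≤ (m + 1) * r ^ m := fun {u} hu m => by
      rw [abs_pow]
      have := pow_le_pow_left₀ (abs_nonneg u) hu.le m
      nlinarith [(m.cast_nonneg : (0 : ℝ) ≤ m), pow_pos r0 m]
    have a1 := mul_le_mul (pw r0 hz.1.le p.1) (p1 hz.2 p.2) (abs_nonneg _) (by positivity)
    have a2 := mul_le_mul (p1 hz.1 p.1) (pw r0 hz.2.le p.2) (abs_nonneg _) (by positivity)
    rw [← abs_mul, ← Real.norm_eq_abs] at a1 a2
    have a3 := norm_add_le_of_le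
      ((norm_smul_le _ _).trans ((mul_le_of_le_one_right (norm_nonneg _)
        (ContinuousLinearMap.norm_fst_le ℝ ℝ ℝ)).trans a1))
      ((norm_smul_le _ _).trans ((mul_le_of_le_one_right (norm_nonneg _)
        (ContinuousLinearMap.norm_snd_le ℝ ℝ ℝ)).trans a2))
    exact (mul_le_mul a3 (h _ _) (norm_nonneg _) (by positivity)).trans_eq (by ring)
  have hu := sm_maj (ra.trans_lt hr1) (ra.trans_lt hr1) (2 * r⁻¹ * K)
  refine ⟨Summable.of_norm_bounded hu fun p => bd p _ hz, hasFDerivAt_tsum_of_isPreconnected hu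
    Metric.isOpen_ball (convex_ball _ _).isPreconnected (fun p z _ => ?_) bd hz
    (sm (K := K) (fun m n => (h m n).trans ?_) hx hy) hz⟩
  · refine (((hasFDerivAt_fst.pow p.1).mul (hasFDerivAt_snd.pow p.2)).smul_const
      (c p.1 p.2)).congr_fderiv ?_
    ext <;> simp [dt, mul_comm]
  · exact le_mul_of_one_le_right hK (one_le_mul_of_one_le_of_one_le (by simp) (by simp))

/-- The flat section of the KZ connection in cubical coordinates, with its logarithms removed. -/
theorem flat64 {a b d e f : A} (h1 : Commute a b) (h2 : Commute a e) (h3 : Commute d b)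
    (h4 : Commute d (e + f)) (h5 : Commute (d + f) e)
    (h6 : (b - a) * f - f * (b - a) + (d * e - e * d) = 0) (ha : ‖a‖ ≤ 1 / 16)
    (hb : ‖b‖ ≤ 1 / 16) (hd : ‖d‖ ≤ 1 / 16) (he : ‖e‖ ≤ 1 / 16) (hf : ‖f‖ ≤ 1 / 16) :
    ∃ H Hx Hy : ℝ → ℝ → A, H 0 0 = 1 ∧ ∀ x y, |x| < 1 → |y| < 1 →
      (∀ (p q : ℝ → ℝ) (p' q' s : ℝ), p s = x → q s = y → HasDerivAt p p' s → HasDerivAt q q' s →
        HasDerivAt (fun t => H (p t) (q t)) (p' • Hx x y + q' • Hy x y) s) ∧
      x • Hx x y = a * H x y - H x y * a - (x / (1 - x)) • (d * H x y) -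
        (x * y / (1 - x * y)) • (f * H x y) ∧
      y • Hy x y = b * H x y - H x y * b - (y / (1 - y)) • (e * H x y) -
        (x * y / (1 - x * y)) • (f * H x y) := by
  obtain ⟨c, K, c0, hK, hP, hQ⟩ := exists_coef h1 h2 h3 h4 h5 h6 ha hb hd he hf
  have K0 := (norm_nonneg _).trans (hK 0 0)
  refine ⟨fun x y => ∑' p, tm c x y p, fun x y => (∑' p, dt c p (x, y)) (1, 0),
    fun x y => (∑' p, dt c p (x, y)) (0, 1), ?_, fun x y hx hy => ?_⟩
  · beta_reduce
    rw [tsum_eq_single (0, 0)]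
    · simp [tm, c0]
    · rintro ⟨m, n⟩ h
      have : m ≠ 0 ∨ n ≠ 0 := by by_contra hc; simp_all
      rcases this with h | h <;> simp [tm, h]
  obtain ⟨s1, s2⟩ := fder hK hx hy
  have bd : ∀ {g : A} {k m n : ℕ}, ‖g‖ ≤ k * K → k ≤ (m + 1) * (n + 1) →
      ‖g‖ ≤ K * ((m + 1) * (n + 1)) := fun {g k m n} h h' => h.trans (by
    rw [mul_comm]; gcongr; exact_mod_cast h')
  have s0 := (sm (c := c) (K := K) (fun m n => bd (k := 1) (by simpa using hK m n)
    (by nlinarith)) hx hy).hasSum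
  have x1 : 1 - x ≠ 0 := (sub_pos.2 ((le_abs_self x).trans_lt hx)).ne'
  have y1 : 1 - y ≠ 0 := (sub_pos.2 ((le_abs_self y).trans_lt hy)).ne'
  have xy : 1 - x * y ≠ 0 := (sub_pos.2 ((le_abs_self _).trans_lt (by
    rw [abs_mul]; nlinarith [abs_nonneg x, abs_nonneg y]))).ne'
  have sa := geo (g := al c) 1 0 (fun m n h => by
      obtain rfl : m = 0 := by omega
      simp [al]) (fun m n => by simp [al, sum_range_succ, add_comm]) s0
    (fun m n => bd (sum_bd m fun j => hK j n) (by nlinarith)) hx hy (by simpa using x1)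
  have sb := geo (g := be c) 0 1 (fun m n h => by
      obtain rfl : n = 0 := by omega
      simp [be]) (fun m n => by simp [be, sum_range_succ, add_comm]) s0
    (fun m n => bd (sum_bd n fun j => hK m j) (by nlinarith)) hx hy (by simpa using y1)
  have sg := geo (g := ga c) 1 1 (fun m n h => by
      have : min m n = 0 := by omega
      simp [ga, this]) (ga_succ c) s0
    (fun m n => bd (sum_bd _ fun j => hK _ _) (by nlinarith [min_le_left m n])) hx hy
    (by simpa using xy)
  simp only [pow_one, pow_zero, mul_one, one_mul] at sa sb sg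
  have pw2 : ∀ (u : ℝ) (m : ℕ), u * (m * u ^ (m - 1)) = u ^ m * m := fun u m => by
    cases m with
    | zero => simp
    | succ m => rw [Nat.add_sub_cancel]; ring
  refine ⟨fun p q p' q' s hp hq dp dq => ?_, ?_, ?_⟩
  · subst hp hq
    refine (HasFDerivAt.comp_hasDerivAt s (f := fun t => (p t, q t)) s2 (dp.prodMk dq)).congr_deriv ?_
    rw [← map_smul, ← map_smul, ← map_add]
    simp
  · refine ((s1.hasSum.mapL (ContinuousLinearMap.apply ℝ A (1, 0))).const_smul x).unique ?_
    rw [← mul_smul_comm, ← mul_smul_comm]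
    refine ((((s0.mul_left a).sub (s0.mul_right a)).sub (sa.mul_left d)).sub
      (sg.mul_left f)).congr_fun fun p => ?_
    simp only [tm, dt, ContinuousLinearMap.apply_apply, ContinuousLinearMap.smulRight_apply,
      mul_smul_comm, smul_mul_assoc, smul_smul]
    have := hP p.1 p.2
    rw [P] at this
    simp only [add_apply, smul_apply,
      ContinuousLinearMap.coe_fst', ContinuousLinearMap.coe_snd', smul_eq_mul, mul_one, mul_zero,
      add_zero]
    rw [← mul_assoc, pw2]
    linear_combination (norm := module) (x ^ p.1 * y ^ p.2) • this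
  · refine ((s1.hasSum.mapL (ContinuousLinearMap.apply ℝ A (0, 1))).const_smul y).unique ?_
    rw [← mul_smul_comm, ← mul_smul_comm]
    refine ((((s0.mul_left b).sub (s0.mul_right b)).sub (sb.mul_left e)).sub
      (sg.mul_left f)).congr_fun fun p => ?_
    simp only [tm, dt, ContinuousLinearMap.apply_apply, ContinuousLinearMap.smulRight_apply,
      mul_smul_comm, smul_mul_assoc, smul_smul]
    have := hQ p.1 p.2
    rw [Q] at this
    simp only [add_apply, smul_apply,
      ContinuousLinearMap.coe_fst', ContinuousLinearMap.coe_snd', smul_eq_mul, mul_one, mul_zero,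
      zero_add]
    rw [mul_left_comm, pw2]
    linear_combination (norm := module) (x ^ p.1 * y ^ p.2) • this

end Pool.Agent.KZ.H64
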