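import Pool.Agent.Lib.KZ.Kit5
import Pool.Agent.Lib.KZ.Flat64

set_option autoImplicit false

noncomputable section

open Set Filter Topology Asymptotics NormedSpace

namespace Pool.Agent.KZ.K5

variable {A : Type} [NormedRing A] [NormedAlgebra ℝ A] [CompleteSpace A]

/-- The regular part of the solution at a vertex. -/
def Fl (a b d e f : A) (H Hx Hy : ℝ → ℝ → A) : Prop :=
  H 0 0 = 1 ∧ ∀ x y, |x| < 1 → |y| < 1 →
    (∀ (p q : ℝ → ℝ) (p' q' s : ℝ), p s = x → q s = y → HasDerivAt p p' s → HasDerivAt q q' s →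
      HasDerivAt (fun t => H (p t) (q t)) (p' • Hx x y + q' • Hy x y) s) ∧
    x • Hx x y = a * H x y - H x y * a - (x / (1 - x)) • (d * H x y) -
      (x * y / (1 - x * y)) • (f * H x y) ∧
    y • Hy x y = b * H x y - H x y * b - (y / (1 - y)) • (e * H x y) -
      (x * y / (1 - x * y)) • (f * H x y)

/-- A component of the connection. -/
def Mx (a d f : A) (x y : ℝ) : A := x⁻¹ • a + (x - 1)⁻¹ • d + (y / (x * y - 1)) • f

/-- The solution at a vertex. -/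
def Vx (a b : A) (H : ℝ → ℝ → A) (x y : ℝ) : A :=
  H x y * exp (Real.log x • a) * exp (Real.log y • b)

/-- The flat system on the open square. -/
def Pde (a b d e f : A) (W : ℝ → ℝ → A) : Prop :=
  ∀ x ∈ Ioo (0 : ℝ) 1, ∀ y ∈ Ioo (0 : ℝ) 1,
    HasDerivAt (fun t => W t y) (Mx a d f x y * W x y) x ∧
      HasDerivAt (fun t => W x t) (Mx b e f y x * W x y) y

theorem mul_lt1 {x y : ℝ} (hx : x ∈ Ioo (0 : ℝ) 1) (hy : y ∈ Ioo (0 : ℝ) 1) : x * y < 1 := by
  nlinarith [hx.1, hx.2, hy.1, hy.2]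

theorem abs_lt1 {x : ℝ} (hx : x ∈ Ioo (0 : ℝ) 1) : |x| < 1 := by
  rw [abs_of_pos hx.1]
  exact hx.2

theorem abs0 : |(0 : ℝ)| < 1 := by simp

variable {a b c d e f f' C : A} {H Hx Hy H' Hx' Hy' W W' : ℝ → ℝ → A}

omit [CompleteSpace A] in
theorem Fl.swap (h : Fl a b d e f H Hx Hy) :
    Fl b a e d f (fun x y => H y x) (fun x y => Hy y x) (fun x y => Hx y x) := by
  refine ⟨h.1, fun x y hx hy => ?_⟩
  obtain ⟨h1, h2, h3⟩ := h.2 y x hy hx
  refine ⟨fun p q p' q' s hp hq dp dq => ?_, ?_, ?_⟩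
  · exact (h1 q p q' p' s hq hp dq dp).congr_deriv (add_comm _ _)
  · rw [mul_comm x y]
    exact h3
  · rw [mul_comm x y]
    exact h2

omit [CompleteSpace A] in
theorem Fl.comm (h : Fl a b d e f H Hx Hy) {x : ℝ} (hx : |x| < 1) : Commute (H x 0) b := by
  have := (h.2 x 0 hx abs0).2.2
  simp only [zero_smul, zero_div, mul_zero, sub_zero] at this
  exact (sub_eq_zero.1 this.symm).symm

theorem pow_deriv (a : A) {p : ℝ → ℝ} {p' s : ℝ} (hp : HasDerivAt p p' s) (h0 : p s ≠ 0) :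
    HasDerivAt (fun t => exp (Real.log (p t) • a))
      ((p' / p s) • (a * exp (Real.log (p s) • a))) s := by
  have := (hasDerivAt_exp_smul_const' a (Real.log (p s))).scomp s (hp.log h0)
  exact this

omit [CompleteSpace A] in
theorem bigO {F : ℝ → A} {F' : A} (h : HasDerivAt F F' 0) :
    (fun y => F y - F 0) =O[𝓝[>] 0] fun z : ℝ => z := by
  simpa using h.isBigO_sub.mono nhdsWithin_le_nhds

theorem Fl.sol (h : Fl a b d e f H Hx Hy) : Sol a d fun x => H x 0 * exp (Real.log x • a) := by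
  refine ⟨fun x hx => ?_, ?_⟩
  · obtain ⟨h1, h2, -⟩ := h.2 x 0 (abs_lt1 hx) abs0
    have d1 := h1 id (fun _ => 0) 1 0 x rfl rfl (hasDerivAt_id x) (hasDerivAt_const x 0)
    refine (d1.mul (pow_deriv a (hasDerivAt_id x) hx.1.ne')).congr_deriv ?_
    have e1 : Hx x 0 = x⁻¹ • (a * H x 0 - H x 0 * a - (x / (1 - x)) • (d * H x 0)) := by
      rw [eq_inv_smul_iff₀ hx.1.ne', h2]
      simp
    have n1 := hx.1.ne'
    have n2 := sub_ne_zero.2 hx.2.ne
    have n3 := sub_ne_zero.2 hx.2.ne'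
    simp only [id, e1, one_smul, zero_smul, add_zero, add_mul, sub_mul, smul_mul_assoc,
      mul_smul_comm, mul_assoc, smul_sub]
    match_scalars <;> field_simp <;> ring
  · have d1 := (h.2 0 0 abs0 abs0).1 id (fun _ => 0) 1 0 0 rfl rfl (hasDerivAt_id 0)
      (hasDerivAt_const 0 0)
    refine (bigO d1).congr_left fun x => ?_
    simp only [id, h.1, mul_assoc, exp_mul_neg, mul_one]

theorem Fl.deriv (hab : Commute a b) (h : Fl a b d e f H Hx Hy) {x y : ℝ}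
    (hx : x ∈ Ioo (0 : ℝ) 1) (hy : y ∈ Ioo (0 : ℝ) 1) {p q : ℝ → ℝ} {p' q' s : ℝ} (hp : p s = x)
    (hq : q s = y) (dp : HasDerivAt p p' s) (dq : HasDerivAt q q' s) :
    HasDerivAt (fun t => Vx a b H (p t) (q t))
      ((p' • Mx a d f x y + q' • Mx b e f y x) * Vx a b H x y) s := by
  obtain ⟨h1, h2, h3⟩ := h.2 x y (abs_lt1 hx) (abs_lt1 hy)
  have n1 := hx.1.ne'
  have n2 := sub_ne_zero.2 hx.2.ne
  have n3 := sub_ne_zero.2 hx.2.ne'
  have n4 := hy.1.ne'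
  have n5 := sub_ne_zero.2 hy.2.ne
  have n6 := sub_ne_zero.2 hy.2.ne'
  have n7 := sub_ne_zero.2 (mul_lt1 hx hy).ne
  have n8 := sub_ne_zero.2 (mul_lt1 hx hy).ne'
  have n9 := sub_ne_zero.2 (mul_lt1 hy hx).ne
  refine (((h1 p q p' q' s hp hq dp dq).mul (pow_deriv a dp (hp ▸ n1))).mul
    (pow_deriv b dq (hq ▸ n4))).congr_deriv ?_
  have k : ∀ X : A, exp (Real.log x • a) * (b * X) = b * (exp (Real.log x • a) * X) := fun X => by
    rw [← mul_assoc, ((hab.smul_left (Real.log x)).exp_left).eq, mul_assoc]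
  rw [(eq_inv_smul_iff₀ n1).2 h2, (eq_inv_smul_iff₀ n4).2 h3]
  simp only [Pi.mul_apply, hp, hq, Vx, Mx, add_mul, sub_mul, smul_mul_assoc, mul_smul_comm,
    mul_assoc, smul_sub, smul_add, k]
  match_scalars <;> field_simp <;> ring

theorem Fl.pde (hab : Commute a b) (h : Fl a b d e f H Hx Hy) : Pde a b d e f (Vx a b H) := by
  intro x hx y hy
  constructor
  · simpa using h.deriv hab hx hy (p := id) (q := fun _ => y) rfl rfl (hasDerivAt_id x)
      (hasDerivAt_const x y)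
  · simpa using h.deriv hab hx hy (p := fun _ => x) (q := id) rfl rfl (hasDerivAt_const y x)
      (hasDerivAt_id y)

theorem ly_mem {x y : ℝ} (hx : x ∈ Ioo (0 : ℝ) 1) (hy : y ∈ Ioo (0 : ℝ) 1) :
    (1 - x) / (1 - x * y) ∈ Ioo (0 : ℝ) 1 := by
  have := mul_lt1 hx hy
  refine ⟨div_pos (by linarith [hx.2]) (by linarith), ?_⟩
  rw [div_lt_one (by linarith)]
  nlinarith [hx.1, hy.2]

theorem ly_dy {x y : ℝ} (h : 1 - x * y ≠ 0) :
    HasDerivAt (fun t => (1 - x) / (1 - x * t)) ((1 - x) * x / (1 - x * y) ^ 2) y :=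
  ((hasDerivAt_const y (1 - x)).div (((hasDerivAt_id y).const_mul x).const_sub 1) h).congr_deriv
    (by simp)

theorem ly_dx {x y : ℝ} (h : 1 - x * y ≠ 0) :
    HasDerivAt (fun t => (1 - t) / (1 - t * y)) ((y - 1) / (1 - x * y) ^ 2) x :=
  (((hasDerivAt_id x).const_sub 1).div (((hasDerivAt_id x).mul_const y).const_sub 1) h).congr_deriv
    (by simp only [id]; congr 1; ring)

/-- The next vertex solves the same system. -/
theorem Fl.pde_next (hbd : Commute b d) (h : Fl b d c a (e - c - a) H Hx Hy) :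
    Pde a b d e (c - d - e) fun x y => Vx b d H y ((1 - x) / (1 - x * y)) := by
  intro x hx y hy
  have n1 := hx.1.ne'
  have n2 := sub_ne_zero.2 hx.2.ne
  have n3 := sub_ne_zero.2 hx.2.ne'
  have n4 := hy.1.ne'
  have n5 := sub_ne_zero.2 hy.2.ne
  have n6 := sub_ne_zero.2 hy.2.ne'
  have n7 := sub_ne_zero.2 (mul_lt1 hx hy).ne
  have n8 := sub_ne_zero.2 (mul_lt1 hx hy).ne'
  have n9 := sub_ne_zero.2 (mul_lt1 hy hx).ne
  have n10 := sub_ne_zero.2 (mul_lt1 hy hx).ne'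
  have e1 : (1 - x) / (1 - x * y) - 1 = x * (y - 1) / (1 - x * y) := by field_simp; ring
  have e2 : (1 - x) / (1 - x * y) * y - 1 = (y - 1) / (1 - x * y) := by field_simp; ring
  have e3 : y * ((1 - x) / (1 - x * y)) - 1 = (y - 1) / (1 - x * y) := by field_simp; ring
  constructor
  · refine (h.deriv hbd hy (ly_mem hx hy) (p := fun _ => y)
      (q := fun t => (1 - t) / (1 - t * y)) rfl rfl (hasDerivAt_const x y)
      (ly_dx n8)).congr_deriv ?_
    congr 1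
    simp only [Mx, e1, e2, e3]
    match_scalars <;> field_simp <;> ring
  · refine (h.deriv hbd hy (ly_mem hx hy) (p := id)
      (q := fun t => (1 - x) / (1 - x * t)) rfl rfl (hasDerivAt_id y) (ly_dy n8)).congr_deriv ?_
    congr 1
    simp only [Mx, e1, e2, e3]
    match_scalars <;> field_simp <;> ring

omit [CompleteSpace A] in
theorem mx_cont (a d f : A) {y : ℝ} (hy : y ∈ Ioo (0 : ℝ) 1) :
    ContinuousOn (fun x => Mx a d f x y) (Ioo 0 1) :=
  (kz_cont a d).add ((continuousOn_const.div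
    ((continuousOn_id.mul continuousOn_const).sub continuousOn_const)
    fun _ hx => sub_ne_zero.2 (mul_lt1 hx hy).ne).smul continuousOn_const)

omit [CompleteSpace A] in
theorem Pde.prop (h : Pde a b d e f W) (h' : Pde a b d e f W') {x₀ y₀ : ℝ}
    (hx : x₀ ∈ Ioo (0 : ℝ) 1) (hy : y₀ ∈ Ioo (0 : ℝ) 1) (he : W x₀ y₀ = W' x₀ y₀ * C) :
    ∀ x ∈ Ioo (0 : ℝ) 1, ∀ y ∈ Ioo (0 : ℝ) 1, W x y = W' x y * C := by
  intro x hx' y hy'
  have s1 := ode_zero (k := fun t => W t y₀ - W' t y₀ * C) (mx_cont a d f hy) (fun t ht =>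
    ((h t ht y₀ hy).1.sub ((h' t ht y₀ hy).1.mul_const C)).congr_deriv
      (by rw [mul_sub, mul_assoc])) hx (sub_eq_zero.2 he) x hx'
  exact sub_eq_zero.1 (ode_zero (k := fun t => W x t - W' x t * C) (mx_cont b e f hx') (fun t ht =>
    ((h x hx' t ht).2.sub ((h' x hx' t ht).2.mul_const C)).congr_deriv
      (by rw [mul_sub, mul_assoc])) hy s1 y hy')

theorem Fl.unit (a' b' : A) (h : Fl a b d e f H Hx Hy) :
    ∃ t ∈ Ioo (0 : ℝ) 1, IsUnit (Vx a' b' H t t) := by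
  have d1 := ((h.2 0 0 abs0 abs0).1 id id 1 1 0 rfl rfl (hasDerivAt_id 0)
    (hasDerivAt_id 0)).continuousAt.tendsto
  simp only [id, h.1] at d1
  obtain ⟨t, h1, h2⟩ := ((unit_of_tendsto (d1.mono_left (nhdsWithin_le_nhds (s := Ioi 0)))).and
    (Ioo_mem_nhdsGT (by norm_num : (0 : ℝ) < 1))).exists
  exact ⟨t, h2, (h1.mul (isUnit_exp_smul _ _)).mul (isUnit_exp_smul _ _)⟩

/-- The edge lemma. -/
theorem edge (ha : Sm a) (hb : Sm b) (hd : Sm d) (hab : Commute a b) (hbd : Commute b d)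
    (h : Fl a b d e (c - d - e) H Hx Hy) (h' : Fl b d c a (e - c - a) H' Hx' Hy')
    (hC : IsPhi a d C) : ∀ x ∈ Ioo (0 : ℝ) 1, ∀ y ∈ Ioo (0 : ℝ) 1,
      Vx a b H x y = Vx b d H' y ((1 - x) / (1 - x * y)) * C := by
  obtain ⟨t, ht, u, hu⟩ := h'.unit b d
  have t1 : 0 < 1 + t := by linarith [ht.1]
  have hx0 : 1 / (1 + t) ∈ Ioo (0 : ℝ) 1 :=
    ⟨by positivity, by rw [div_lt_one t1]; linarith [ht.1]⟩
  have e0 : (1 - 1 / (1 + t)) / (1 - 1 / (1 + t) * t) = t := by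
    field_simp
    ring
  have key := (h.pde hab).prop (h'.pde_next hbd) (C := ↑u⁻¹ * Vx a b H (1 / (1 + t)) t) hx0 ht
    (by simp only [e0]; rw [← hu, Units.mul_inv_cancel_left])
  suffices hh : IsPhi a d (↑u⁻¹ * Vx a b H (1 / (1 + t)) t) by
    rw [st_UQ A a d _ _ ha hd hC hh]
    exact key
  refine ⟨_, _, h.sol, h'.swap.sol, fun x hx => ?_⟩
  have hx1 : 1 - x ∈ Ioo (0 : ℝ) 1 := ⟨by linarith [hx.2], by linarith [hx.1]⟩
  have dF := ((h.2 x 0 (abs_lt1 hx) abs0).1 (fun _ => x) id 0 1 0 rfl rfl (hasDerivAt_const 0 x)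
    (hasDerivAt_id 0)).mul_const (exp (Real.log x • a))
  have du := ly_dy (x := x) (y := 0) (by simp)
  have dG := ((h'.2 0 (1 - x) abs0 (abs_lt1 hx1)).1 id (fun t => (1 - x) / (1 - x * t)) 1 _ 0 rfl
    (by simp) (hasDerivAt_id 0) du).mul (pow_deriv d du (by simpa using hx1.1.ne'))
  have l := edge_lim (sm_le hb) (bigO dF) (bigO dG) (C := ↑u⁻¹ * Vx a b H (1 / (1 + t)) t)
    ((h.comm (abs_lt1 hx)).mul_left (hab.smul_left _).exp_left)
    (by
      simp only [Pi.mul_apply, id, mul_zero, sub_zero, div_one]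
      exact (h'.swap.comm (abs_lt1 hx1)).mul_left (hbd.symm.smul_left _).exp_left)
    (fun y hy => by
      have := key x hx y hy
      simp only [Vx] at this
      simp only [Pi.mul_apply, id, Vx]
      rw [this, mul_assoc (H' _ _) (exp _), (((hbd.smul_left _).smul_right _).exp).eq,
        ← mul_assoc (H' _ _)])
  simpa only [Pi.mul_apply, id, mul_zero, sub_zero, div_one] using l

theorem exists_fl (ha : Sm a) (hb : Sm b) (hd : Sm d) (hc : Sm c) (he : Sm e)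
    (h1 : Commute a b) (h2 : Commute b d) (h3 : Commute d c) (h4 : Commute c e)
    (h5 : Commute e a) (h6 : (a * c - c * a) + (c * b - b * c) + (b * e - e * b) +
      (e * d - d * e) + (d * a - a * d) = 0) :
    ∃ H Hx Hy, Fl a b d e (c - d - e) H Hx Hy := by
  unfold Sm at ha hb hd hc he
  refine H64.flat64 h1 h5.symm h2.symm ?_ ?_ ?_ (by linarith) (by linarith) (by linarith)
    (by linarith) ?_
  · rw [show e + (c - d - e) = c - d by abel]
    exact h3.sub_right (Commute.refl d)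
  · rw [show d + (c - d - e) = c - e by abel]
    exact h4.sub_left (Commute.refl e)
  · rw [← neg_eq_zero, ← h6]
    simp only [mul_sub, sub_mul, h2.eq, h5.eq]
    abel
  · linarith [norm_sub_le (c - d) e, norm_sub_le c d]

theorem exists_sol (ha : Sm a) (hb : Sm b) : ∃ g, Sol a b g := by
  unfold Sm at ha hb
  obtain ⟨H, Hx, Hy, h⟩ := H64.flat64 (a := a) (b := 0) (d := b) (e := 0) (f := 0)
    (Commute.zero_right _) (Commute.zero_right _) (Commute.zero_right _) (by simp)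
    (Commute.zero_right _) (by simp) (by linarith) (by simp) (by linarith) (by simp) (by simp)
  exact ⟨_, Fl.sol h⟩

theorem st_EX : St_EX := by
  intro A _ _ _ a b ha hb
  obtain ⟨g₀, h0⟩ := exists_sol ha hb
  obtain ⟨g₁, h1⟩ := exists_sol hb ha
  obtain ⟨C, hC⟩ := isPhi_of_sol h0 h1
  exact ⟨C, g₀, g₁, h0, h1, hC⟩

theorem st_PENT : St_PENT := by
  intro A _ _ _ a b d c e C₁ C₂ C₃ C₄ C₅ ha hb hd hc he h1 h2 h3 h4 h5 h6 p1 p2 p3 p4 p5
  obtain ⟨H1, _, _, f1⟩ := exists_fl ha hb hd hc he h1 h2 h3 h4 h5 h6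
  obtain ⟨H2, _, _, f2⟩ := exists_fl hb hd hc he ha h2 h3 h4 h5 h1 (by rw [← h6]; abel)
  obtain ⟨H3, _, _, f3⟩ := exists_fl hd hc he ha hb h3 h4 h5 h1 h2 (by rw [← h6]; abel)
  obtain ⟨H4, _, _, f4⟩ := exists_fl hc he ha hb hd h4 h5 h1 h2 h3 (by rw [← h6]; abel)
  obtain ⟨H5, _, _, f5⟩ := exists_fl he ha hb hd hc h5 h1 h2 h3 h4 (by rw [← h6]; abel)
  obtain ⟨φ, hφ, e0⟩ : ∃ φ ∈ Ioo (0 : ℝ) 1, (1 - φ) / (1 - φ * φ) = φ := by
    have s := Real.sq_sqrt (by norm_num : (0 : ℝ) ≤ 5)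
    have s0 := Real.sqrt_nonneg 5
    have m : (√5 - 1) / 2 ∈ Ioo (0 : ℝ) 1 := ⟨by nlinarith, by nlinarith⟩
    refine ⟨_, m, ?_⟩
    rw [div_eq_iff (sub_ne_zero.2 (mul_lt1 m m).ne')]
    have : √5 ^ 3 = 5 * √5 := by rw [pow_succ, s]
    nlinarith
  have e1 := edge ha hb hd h1 h2 f1 f2 p1 φ hφ φ hφ
  have e2 := edge hb hd hc h2 h3 f2 f3 p2 φ hφ φ hφ
  have e3 := edge hd hc he h3 h4 f3 f4 p3 φ hφ φ hφ
  have e4 := edge hc he ha h4 h5 f4 f5 p4 φ hφ φ hφ
  have e5 := edge he ha hb h5 h1 f5 f1 p5 φ hφ φ hφ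
  rw [e0] at e1 e2 e3 e4 e5
  obtain ⟨t, ht, hu⟩ := f1.unit a b
  have key := (f1.pde h1).prop (f1.pde h1) (C := C₅ * C₄ * C₃ * C₂ * C₁) hφ hφ
    (by conv_lhs => rw [e1, e2, e3, e4, e5]
        simp only [mul_assoc]) t ht t ht
  exact hu.mul_left_cancel (key.symm.trans (mul_one _).symm)

end Pool.Agent.KZ.K5
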