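import Mathlib

/-! Sign of the depth one coefficients of the KZ associator, without polylogarithms. -/

open Filter Topology Set Asymptotics

namespace Pool.Agent.Lib.KZ.H67

variable {A : Type*} [NormedRing A] [NormedAlgebra ℝ A] [CompleteSpace A]

theorem norm_exp_le (x : A) : ‖NormedSpace.exp x‖ ≤ ‖(1 : A)‖ + Real.exp ‖x‖ := by
  have h1 := NormedSpace.exp_series_hasSum_exp' (𝕂 := ℝ) x
  have h2 := NormedSpace.exp_series_hasSum_exp' (𝕂 := ℝ) ‖x‖
  rw [← Real.exp_eq_exp_ℝ] at h2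
  have h3 : HasSum (fun n : ℕ => if n = 0 then ‖(1 : A)‖ else 0) ‖(1 : A)‖ := hasSum_ite_eq 0 _
  refine h1.norm_le_of_bounded (h3.add h2) fun n => ?_
  rcases Nat.eq_zero_or_pos n with rfl | hn
  · simp
  · rw [if_neg hn.ne', zero_add, norm_smul, smul_eq_mul, Real.norm_of_nonneg (by positivity)]
    exact mul_le_mul_of_nonneg_left (norm_pow_le' x hn) (by positivity)

theorem exp_neg_mul (t : ℝ) (b : A) :
    NormedSpace.exp ((-t) • b) * NormedSpace.exp (t • b) = 1 := by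
  rw [← NormedSpace.exp_add_of_commute_of_mem_ball (𝕂 := ℝ)
    (((Commute.refl b).smul_left _).smul_right _)
    ((NormedSpace.expSeries_radius_eq_top ℝ A).symm ▸ edist_lt_top _ _)
    ((NormedSpace.expSeries_radius_eq_top ℝ A).symm ▸ edist_lt_top _ _), ← add_smul]
  simp

theorem l_mul_exp (l : A →L[ℝ] ℝ) (a : A) (h : ∀ g, l (g * a) = 0) (g : A) (t : ℝ) :
    l (g * NormedSpace.exp (t • a)) = l g := by
  have hd : ∀ s : ℝ, HasDerivAt (fun u : ℝ => l (g * NormedSpace.exp (u • a))) 0 s := by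
    intro s
    have := l.hasFDerivAt.comp_hasDerivAt s ((hasDerivAt_exp_smul_const a s).const_mul g)
    rw [← mul_assoc, h] at this
    exact this
  have := is_const_of_deriv_eq_zero (fun s => (hd s).differentiableAt) (fun s => (hd s).deriv) t 0
  simpa using this

theorem l_exp_mul (l : A →L[ℝ] ℝ) (b : A) (h : ∀ g, l (b * g) = 0) (g : A) (t : ℝ) :
    l (NormedSpace.exp (t • b) * g) = l g := by
  have hd : ∀ s : ℝ, HasDerivAt (fun u : ℝ => l (NormedSpace.exp (u • b) * g)) 0 s := by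
    intro s
    have := l.hasFDerivAt.comp_hasDerivAt s ((hasDerivAt_exp_smul_const' b s).mul_const g)
    rw [mul_assoc, h] at this
    exact this
  have := is_const_of_deriv_eq_zero (fun s => (hd s).differentiableAt) (fun s => (hd s).deriv) t 0
  simpa using this

/-- a function with negative derivative on `(0,1)` and limit `0` at `0` is negative, decreasing -/
theorem neg_of_deriv (v v' : ℝ → ℝ) (hd : ∀ z ∈ Ioo (0 : ℝ) 1, HasDerivAt v (v' z) z)
    (hn : ∀ z ∈ Ioo (0 : ℝ) 1, v' z < 0) (h0 : Tendsto v (𝓝[>] 0) (𝓝 0)) :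
    StrictAntiOn v (Ioo 0 1) ∧ ∀ z ∈ Ioo (0 : ℝ) 1, v z < 0 := by
  have ha : StrictAntiOn v (Ioo 0 1) := by
    refine strictAntiOn_of_deriv_neg (convex_Ioo 0 1)
      (fun z hz => (hd z hz).continuousAt.continuousWithinAt) fun z hz => ?_
    rw [interior_Ioo] at hz
    rw [(hd z hz).deriv]
    exact hn z hz
  refine ⟨ha, fun z hz => ?_⟩
  have hz2 : z / 2 ∈ Ioo (0 : ℝ) 1 := ⟨by linarith [hz.1], by linarith [hz.1, hz.2]⟩
  have h1 : v z < v (z / 2) := ha hz2 hz (by linarith [hz.1])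
  have h2 : v (z / 2) ≤ 0 := by
    refine ge_of_tendsto h0 ?_
    filter_upwards [Ioo_mem_nhdsGT hz2.1] with u hu
    exact (ha ⟨hu.1, hu.2.trans hz2.2⟩ hz2 hu.2).le
  linarith

theorem tendsto_l (l : A →L[ℝ] ℝ) (a : A) (h : ∀ g, l (g * a) = 0) (g : ℝ → A)
    (ho : (fun z => g z * NormedSpace.exp ((-Real.log z) • a) - 1) =O[𝓝[>] 0] fun z : ℝ => z) :
    Tendsto (fun z => l (g z)) (𝓝[>] 0) (𝓝 (l 1)) := by
  have h1 : Tendsto (fun z => g z * NormedSpace.exp ((-Real.log z) • a) - 1) (𝓝[>] 0) (𝓝 0) :=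
    ho.trans_tendsto (tendsto_nhdsWithin_of_tendsto_nhds tendsto_id)
  have h2 := (l.continuous.tendsto _).comp (h1.add_const 1)
  simp only [zero_add] at h2
  refine h2.congr fun z => ?_
  simp only [Function.comp, sub_add_cancel]
  exact l_mul_exp l a h _ _

theorem tendsto_r (l : A →L[ℝ] ℝ) (b C : A) (hb : ‖b‖ < 1) (h : ∀ g, l (b * g) = 0) (g : ℝ → A)
    (ho : (fun z => g z * NormedSpace.exp ((-Real.log z) • b) - 1) =O[𝓝[>] 0] fun z : ℝ => z) :
    Tendsto (fun z => l (g z * C)) (𝓝[>] 0) (𝓝 (l C)) := by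
  have hE : (fun z : ℝ => NormedSpace.exp (Real.log z • b) * C) =O[𝓝[>] 0]
      fun z : ℝ => z ^ (-‖b‖) := by
    refine IsBigO.of_bound ((‖(1 : A)‖ + 1) * ‖C‖) ?_
    filter_upwards [Ioo_mem_nhdsGT (zero_lt_one' ℝ)] with z hz
    have hl : Real.log z ≤ 0 := Real.log_nonpos hz.1.le hz.2.le
    have e1 : Real.exp ‖Real.log z • b‖ = z ^ (-‖b‖) := by
      rw [norm_smul, Real.norm_of_nonpos hl, Real.rpow_def_of_pos hz.1]
      exact congrArg _ (by ring)
    have e2 : 1 ≤ z ^ (-‖b‖) := by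
      rw [← e1]
      exact Real.one_le_exp (norm_nonneg _)
    have e3 := norm_exp_le (Real.log z • b)
    rw [e1] at e3
    rw [Real.norm_of_nonneg (by linarith : 0 ≤ z ^ (-‖b‖))]
    calc _ ≤ ‖NormedSpace.exp (Real.log z • b)‖ * ‖C‖ := norm_mul_le _ _
      _ ≤ ((‖(1 : A)‖ + 1) * z ^ (-‖b‖)) * ‖C‖ := by
        refine mul_le_mul_of_nonneg_right (e3.trans ?_) (norm_nonneg _)
        nlinarith [norm_nonneg (1 : A)]
      _ = _ := by ring
  have hz : Tendsto (fun z : ℝ => z * z ^ (-‖b‖)) (𝓝[>] 0) (𝓝 0) := by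
    have h1 : Tendsto (fun z : ℝ => z ^ (1 - ‖b‖)) (𝓝[>] 0) (𝓝 0) := by
      have := (Real.continuousAt_rpow_const 0 (1 - ‖b‖) (Or.inr (by linarith))).tendsto
      rw [Real.zero_rpow (by linarith)] at this
      exact tendsto_nhdsWithin_of_tendsto_nhds this
    refine h1.congr' ?_
    filter_upwards [self_mem_nhdsWithin] with z hz
    rw [sub_eq_add_neg, Real.rpow_add hz, Real.rpow_one]
  have h1 := (ho.mul hE).trans_tendsto hz
  have h2 := ((l.continuous.tendsto _).comp h1).add_const (l C)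
  simp only [map_zero, zero_add] at h2
  refine h2.congr fun z => ?_
  simp only [Function.comp]
  rw [sub_mul, one_mul, map_sub, l_exp_mul l b h, mul_assoc, ← mul_assoc _ _ C, exp_neg_mul,
    one_mul, sub_add_cancel]

/-- `l j` plays the coefficient of `x^j y` (scaled), `eps` the constant term. -/
theorem sign (a b C : A) (hb : ‖b‖ < 1) (g0 g1 : ℝ → A)
    (hd0 : ∀ z ∈ Ioo (0 : ℝ) 1, HasDerivAt g0 ((z⁻¹ • a + (z - 1)⁻¹ • b) * g0 z) z)
    (ho0 : (fun z => g0 z * NormedSpace.exp ((-Real.log z) • a) - 1) =O[𝓝[>] 0] fun z : ℝ => z)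
    (ho1 : (fun z => g1 z * NormedSpace.exp ((-Real.log z) • b) - 1) =O[𝓝[>] 0] fun z : ℝ => z)
    (hC : ∀ z ∈ Ioo (0 : ℝ) 1, g0 z = g1 (1 - z) * C)
    (T : ℝ) (hT : 0 < T) (eps : A →L[ℝ] ℝ) (l : ℕ → A →L[ℝ] ℝ) (n : ℕ) (hn : 1 ≤ n)
    (e1 : eps 1 = 1) (ea : ∀ g, eps (a * g) = 0) (eb : ∀ g, eps (b * g) = 0)
    (er : ∀ g, eps (g * a) = 0)
    (l1 : ∀ j ≤ n, l j 1 = 0) (lr : ∀ j ≤ n, ∀ g, l j (g * a) = 0)
    (l0a : ∀ g, l 0 (a * g) = 0) (l0b : ∀ g, l 0 (b * g) = T * eps g)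
    (lsa : ∀ j < n, ∀ g, l (j + 1) (a * g) = T * l j g)
    (lsb : ∀ j < n, ∀ g, l (j + 1) (b * g) = 0) : l n C < 0 := by
  have hD : ∀ (m : A →L[ℝ] ℝ), ∀ z ∈ Ioo (0 : ℝ) 1, HasDerivAt (fun u => m (g0 u))
      (z⁻¹ * m (a * g0 z) + (z - 1)⁻¹ * m (b * g0 z)) z := by
    intro m z hz
    have := m.hasFDerivAt.comp_hasDerivAt z (hd0 z hz)
    rw [add_mul, smul_mul_assoc, smul_mul_assoc, map_add, map_smul, map_smul] at this
    exact this
  have he : ∀ z ∈ Ioo (0 : ℝ) 1, eps (g0 z) = 1 := by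
    have hc : ∀ z ∈ Ioo (0 : ℝ) 1, ∀ w ∈ Ioo (0 : ℝ) 1, eps (g0 z) = eps (g0 w) := by
      intro z hz w hw
      refine isOpen_Ioo.is_const_of_deriv_eq_zero (f := fun u => eps (g0 u)) isPreconnected_Ioo
        (fun u hu => (hD eps u hu).differentiableAt.differentiableWithinAt) (fun u hu => ?_) hz hw
      rw [(hD eps u hu).deriv, ea, eb]
      simp
    intro z hz
    have h1 := tendsto_l eps a er g0 ho0
    rw [e1] at h1
    refine tendsto_nhds_unique (l := 𝓝[>] (0 : ℝ)) (tendsto_const_nhds.congr' ?_) h1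
    filter_upwards [Ioo_mem_nhdsGT (zero_lt_one' ℝ)] with w hw
    exact hc z hz w hw
  have key : ∀ j ≤ n, StrictAntiOn (fun u => l j (g0 u)) (Ioo 0 1) ∧
      ∀ z ∈ Ioo (0 : ℝ) 1, l j (g0 z) < 0 := by
    intro j
    induction j with
    | zero =>
      intro h
      refine neg_of_deriv _ _ (hD (l 0)) (fun z hz => ?_)
        (l1 0 h ▸ tendsto_l (l 0) a (lr 0 h) g0 ho0)
      rw [l0a, l0b, he z hz, mul_zero, zero_add, mul_one]
      exact mul_neg_of_neg_of_pos (inv_lt_zero.2 (by linarith [hz.2])) hT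
    | succ j ih =>
      intro h
      refine neg_of_deriv _ _ (hD (l (j + 1))) (fun z hz => ?_)
        (l1 _ h ▸ tendsto_l (l (j + 1)) a (lr _ h) g0 ho0)
      rw [lsa j h, lsb j h, mul_zero, add_zero]
      exact mul_neg_of_pos_of_neg (inv_pos.2 hz.1)
        (mul_neg_of_pos_of_neg hT ((ih (Nat.le_of_succ_le h)).2 z hz))
  obtain ⟨m, rfl⟩ : ∃ m, n = m + 1 := ⟨n - 1, by omega⟩
  have h1 := tendsto_r (l (m + 1)) b C hb (lsb m (by omega)) g1 ho1
  have hh : (1 / 2 : ℝ) ∈ Ioo (0 : ℝ) 1 := ⟨by norm_num, by norm_num⟩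
  refine lt_of_le_of_lt (le_of_tendsto h1 ?_) ((key _ le_rfl).2 _ hh)
  filter_upwards [Ioo_mem_nhdsGT hh.1] with u hu
  have hu' : 1 - u ∈ Ioo (0 : ℝ) 1 := ⟨by linarith [hu.2], by linarith [hu.1]⟩
  have e := hC _ hu'
  rw [sub_sub_cancel] at e
  rw [← e]
  exact ((key _ le_rfl).1 hh hu' (by linarith [hu.2])).le

end Pool.Agent.Lib.KZ.H67
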