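import Pool.Agent.Lib.KZ.Blue
import Pool.Agent.Lib.KZ.Sign67

noncomputable section

open Set Filter Topology Asymptotics Pool.Agent.DR

namespace Pool.Agent.KZ.S67

/-- coordinates -/
abbrev V (n : ℕ) := Fin (n + 2) → ℝ

/-- half of the shift -/
def opa (n : ℕ) : V n →L[ℝ] V n := ContinuousLinearMap.pi fun i =>
  if 2 ≤ i.val then (1 / 2 : ℝ) • ContinuousLinearMap.proj ⟨i.val - 1, by omega⟩ else 0

/-- half of an elementary matrix -/
def opb (n : ℕ) : V n →L[ℝ] V n := ContinuousLinearMap.pi fun i =>
  if i.val = 1 then (1 / 2 : ℝ) • ContinuousLinearMap.proj 0 else 0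

/-- total coordinate function -/
def co {n : ℕ} (j : ℕ) : V n →L[ℝ] ℝ :=
  if h : j < n + 2 then ContinuousLinearMap.proj ⟨j, h⟩ else 0

theorem co_val {n : ℕ} (v : V n) (i : Fin (n + 2)) : co i.val v = v i := by
  simp [co, i.2]

theorem co_a {n : ℕ} (v : V n) (j : ℕ) :
    co j (opa n v) = if 2 ≤ j ∧ j < n + 2 then 1 / 2 * co (j - 1) v else 0 := by
  by_cases h : j < n + 2
  · have h' : j - 1 < n + 2 := by omega
    by_cases h2 : 2 ≤ j <;> simp [co, opa, h, h', h2]
  · simp [co, h]

theorem co_b {n : ℕ} (v : V n) (j : ℕ) :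
    co j (opb n v) = if j = 1 then 1 / 2 * co 0 v else 0 := by
  by_cases h : j < n + 2
  · by_cases h2 : j = 1 <;> simp [co, opb, h, h2]
  · have : j ≠ 1 := by omega
    simp [co, h, this]

theorem wd_c {B : Type*} [Monoid B] (p q : B) (s : Bool) (u : List Bool) :
    wd p q (s :: u) = (if s then q else p) * wd p q u := by simp [wd]

theorem low {n : ℕ} (v : V n) (u : List Bool) :
    ∀ j < u.length, co j (wd (opa n) (opb n) u v) = 0 := by
  induction u with
  | nil => simp
  | cons s u ih =>
    intro j hj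
    rw [wd_c, mul_apply_eq_comp]
    simp only [List.length_cons] at hj
    cases s
    · simp only [Bool.false_eq_true, if_false]
      rw [co_a]
      split_ifs with h
      · rw [ih _ (by omega), mul_zero]
      · rfl
    · simp only [if_true]
      rw [co_b]
      split_ifs with h
      · rw [ih _ (by omega), mul_zero]
      · rfl

theorem nil (n : ℕ) : Nil (n + 1) (opa n) (opb n) := by
  intro u hu
  ext v i
  have := low v u i.val (by omega)
  rw [co_val] at this
  exact this

/-- the first basis vector -/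
def e0 (n : ℕ) : V n := Pi.single 0 1

theorem co_e0 (n j : ℕ) : co j (e0 n) = if j = 0 then 1 else 0 := by
  by_cases h : j < n + 2
  · simp [co, e0, h, Pi.single_apply, Fin.ext_iff]
  · have : j ≠ 0 := by omega
    simp [co, h, this]

theorem a_e0 (n : ℕ) : opa n (e0 n) = 0 := by
  ext i
  rw [← co_val (opa n (e0 n)) i, co_a, co_e0]
  split_ifs with h1 h2
  · omega
  · simp
  · rfl

theorem co_wd (n : ℕ) (u : List Bool) : ∀ j ≤ n, co (j + 1) (wd (opa n) (opb n) u (e0 n)) =
    if u = List.replicate j false ++ [true] then (1 / 2) ^ (j + 1) else 0 := by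
  induction u with
  | nil => intro j _; simp [wd, co_e0]
  | cons s u ih =>
    intro j hj
    rw [wd_c, mul_apply_eq_comp]
    cases s
    · simp only [Bool.false_eq_true, if_false]
      rw [co_a]
      cases j with
      | zero => simp
      | succ j =>
        rw [if_pos ⟨by omega, by omega⟩, Nat.add_sub_cancel, ih j (by omega)]
        simp only [List.replicate_succ, List.cons_append, List.cons.injEq, true_and]
        split_ifs
        · ring
        · simp
    · simp only [if_true]
      rw [co_b]
      cases j with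
      | zero =>
        cases u with
        | nil => simp [wd, co_e0]
        | cons t u => rw [if_pos rfl, low _ _ 0 (by simp)]; simp
      | succ j => simp [List.replicate_succ]

theorem norm_b (n : ℕ) : ‖opb n‖ < 1 := by
  refine lt_of_le_of_lt (ContinuousLinearMap.opNorm_le_bound _ (M := 1 / 2) (by norm_num)
    fun v => ?_) (by norm_num)
  refine (pi_norm_le_iff_of_nonneg (by positivity)).2 fun i => ?_
  rw [← co_val (opb n v) i, co_b]
  split_ifs
  · have := co_val v 0
    rw [Fin.val_zero] at this
    rw [this, norm_mul, Real.norm_of_nonneg (by norm_num)]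
    exact mul_le_mul_of_nonneg_left (norm_le_pi_norm v 0) (by norm_num)
  · rw [norm_zero]
    positivity

/-- matrix coefficient -/
def mc (n j : ℕ) : (V n →L[ℝ] V n) →L[ℝ] ℝ :=
  (co j).comp (ContinuousLinearMap.apply ℝ (V n) (e0 n))

theorem mc_apply (n j : ℕ) (g : V n →L[ℝ] V n) : mc n j g = co j (g (e0 n)) := rfl

theorem mc_tr (Φ : List Bool → ℝ) (n : ℕ) : mc n (n + 1) (tr Φ (n + 1) (opa n) (opb n)) =
    Φ (List.replicate n false ++ [true]) * (1 / 2) ^ (n + 1) := by
  unfold tr
  simp only [map_sum, map_smul, mc_apply, co_wd n _ n le_rfl, smul_eq_mul]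
  rw [Finset.sum_eq_single (n + 1)]
  · obtain ⟨w, hw⟩ : ∃ w : List.Vector Bool (n + 1),
        w.toList = List.replicate n false ++ [true] := ⟨⟨_, by simp⟩, rfl⟩
    rw [Finset.sum_eq_single w (fun u _ hu => ?_) (by simp), hw, if_pos rfl]
    rw [if_neg fun h => hu (List.Vector.toList_injective (h.trans hw.symm)), mul_zero]
  · intro m _ hm
    refine Finset.sum_eq_zero fun u _ => ?_
    rw [if_neg fun h => hm (by simpa using congrArg List.length h), mul_zero]
  · simp

theorem st_SIGN : St_SIGN := by
  intro Φ hΦ k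
  obtain ⟨g0, g1, h0, h1, hC⟩ := hΦ _ _ _ _ (nil (k + 1))
  have := Pool.Agent.Lib.KZ.H67.sign _ _ _ (norm_b (k + 1)) g0 g1 h0.1 h0.2 h1.2 hC (1 / 2)
    (by norm_num) (mc (k + 1) 0) (fun j => mc (k + 1) (j + 1)) (k + 1) (by omega)
    (by simp [mc_apply, co_e0]) (fun g => by simp [mc_apply, co_a])
    (fun g => by simp [mc_apply, co_b]) (fun g => by simp [mc_apply, a_e0])
    (fun j _ => by simp [mc_apply, co_e0]) (fun j _ g => by simp [mc_apply, a_e0])
    (fun g => by simp [mc_apply, co_a]) (fun g => by simp [mc_apply, co_b])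
    (fun j hj g => by
      rw [mc_apply, mc_apply, mul_apply_eq_comp, co_a, if_pos ⟨by omega, by omega⟩]
      rfl)
    (fun j _ g => by simp [mc_apply, co_b])
  rw [mc_tr] at this
  exact neg_of_mul_neg_left this (by positivity : (0 : ℝ) ≤ (1 / 2) ^ (k + 1 + 1))

end Pool.Agent.KZ.S67
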