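import Pool.Agent.Lib.KZ.Fd49

set_option autoImplicit false

noncomputable section

open Pool.Agent.DR PowerSeries

namespace Pool.Agent.KZ

namespace T49

theorem symm (i j : Fin 4) : tt ℝ i j = tt ℝ j i := RingQuot.mkAlgHom_rel ℝ (Rel.symm i j)

theorem tri (i j k : Fin 4) (h : [i, j, k].Nodup) : Commute (tt ℝ i j) (tt ℝ i k + tt ℝ j k) := by
  have := RingQuot.mkAlgHom_rel ℝ (Rel.tri (R := ℝ) i j k h)
  simp only [map_mul, map_add] at this
  exact this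

theorem far (i j k l : Fin 4) (h : [i, j, k, l].Nodup) : Commute (tt ℝ i j) (tt ℝ k l) := by
  have := RingQuot.mkAlgHom_rel ℝ (Rel.far (R := ℝ) i j k l h)
  simp only [map_mul] at this
  exact this

variable {A : Type} [NormedRing A] [NormedAlgebra ℝ A] [CompleteSpace A]

theorem core (hI : St_INV) (hS : St_SHIFT) (hP : St_PENT) {e b c p q X Y C₁ C₂ C₃ C₄ C₅ C₆ : A}
    (he : ‖e‖ ≤ 1 / 192) (hb : ‖b‖ ≤ 1 / 192) (hc : ‖c‖ ≤ 1 / 192) (hp : ‖p‖ ≤ 1 / 192)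
    (hq : ‖q‖ ≤ 1 / 192) (r1 : Commute e (p + b)) (r2 : Commute b (e + p)) (r3 : Commute b (q + c))
    (r4 : Commute c (b + q)) (r5 : Commute c e) (r6 : Commute p q)
    (hX : IsPhi e (b + q) X) (hY : IsPhi (p + b) c Y) (h1 : IsPhi (e + p) (q + c) C₁)
    (h2 : IsPhi b c C₂) (h3 : IsPhi (b + q + c) e C₃) (h4 : IsPhi c (p + b + e) C₄)
    (h5 : IsPhi e b C₅) (h6 : IsPhi b e C₆) : X * Y = C₂ * C₁ * C₅ := by
  have s1 : ∀ {x : A}, ‖x‖ ≤ 1 / 192 → Sm x := fun h => h.trans (by norm_num)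
  have s2 : ∀ {x y : A}, ‖x‖ ≤ 1 / 192 → ‖y‖ ≤ 1 / 192 → Sm (x + y) := fun h h' =>
    (norm_add_le_of_le h h').trans (by norm_num)
  have s3 : ∀ {x y z : A}, ‖x‖ ≤ 1 / 192 → ‖y‖ ≤ 1 / 192 → ‖z‖ ≤ 1 / 192 → Sm (x + y + z) :=
    fun h h' h'' => (norm_add_le_of_le (norm_add_le_of_le h h') h'').trans (by norm_num)
  have e1 : e + p + b = p + b + e := by abel
  have e2 : q + c + b = b + q + c := by abel
  have hX' := (hS A _ _ c _ (s1 he) (s2 hb hq) r5 r4 hX).2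
  have hY' := (hS A _ _ e _ (s2 hp hb) (s1 hc) r1 r5.symm hY).1
  have h1' := (hS A _ _ b _ (s3 he hp hb) (s2 hq hc) (r2.add_right (Commute.refl b)) r3
    (hS A _ _ b _ (s2 he hp) (s2 hq hc) r2 r3 h1).1).2
  rw [e1, e2] at h1'
  have k := hP A (p + b + e) b (b + q + c) c e _ _ _ _ _ (s3 hp hb he) (s1 hb) (s3 hb hq hc) (s1 hc)
    (s1 he) (e1 ▸ (r2.add_right (Commute.refl b)).symm) (e2 ▸ r3.add_right (Commute.refl b))
    (r4.add_right (Commute.refl c)).symm r5 (r1.add_right (Commute.refl e)) (by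
      calc _ = -(p * q - q * p) + (b * (e + p) - (e + p) * b) - (b * (q + c) - (q + c) * b) -
            (c * e - e * c) := by noncomm_ring
        _ = 0 := by rw [r6.eq, r2.eq, r3.eq, r5.eq]; simp)
    h1' h2 h3 h4 h5
  have i1 := hI A _ _ _ _ (s1 he) (s3 hb hq hc) hX' h3
  have i2 := hI A _ _ _ _ (s3 hp hb he) (s1 hc) hY' h4
  have i3 := hI A _ _ _ _ (s1 hb) (s1 he) h6 h5
  have k2 : C₄ * C₃ * C₂ * C₁ * C₅ = 1 := by
    calc _ = C₆ * C₅ * (C₄ * C₃ * C₂ * C₁ * C₅) := by rw [i3, one_mul]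
      _ = C₆ * (C₅ * C₄ * C₃ * C₂ * C₁) * C₅ := by simp only [mul_assoc]
      _ = 1 := by rw [k, mul_one, i3]
  calc X * Y = X * Y * (C₄ * C₃ * C₂ * C₁ * C₅) := by rw [k2, mul_one]
    _ = X * (Y * C₄) * C₃ * (C₂ * C₁ * C₅) := by simp only [mul_assoc]
    _ = _ := by rw [i2, mul_one, i1, one_mul]

/-- Rescaling of series. -/
def sc {B : Type} [Ring B] [Algebra ℝ B] (T : ℝ) (F : PowerSeries B) : PowerSeries B :=
  PowerSeries.mk fun n => T ^ n • coeff n F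

theorem sc_mul {B : Type} [Ring B] [Algebra ℝ B] (T : ℝ) (F G : PowerSeries B) :
    sc T F * sc T G = sc T (F * G) := by
  ext n
  simp only [sc, coeff_mul, coeff_mk, Finset.smul_sum]
  refine Finset.sum_congr rfl fun p hp => ?_
  rw [← Finset.mem_antidiagonal.1 hp, pow_add, smul_mul_smul_comm]

theorem ser_smul {B : Type} [Ring B] [Algebra ℝ B] (Φ : List Bool → ℝ) (T : ℝ) (p q : B) :
    ser Φ (T • p) (T • q) = sc T (ser Φ p q) := by
  ext n
  rw [coeff_ser_smul, sc, coeff_mk]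

end T49

open T49 in
theorem st_TRANS49 (hI : St_INV) (hS : St_SHIFT) (hP : St_PENT) : St_TRANS := by
  intro Φ hΦ
  refine PowerSeries.ext fun n => ?_
  let V := Submodule.span ℝ (Set.range fun p : Fin 4 × Fin 4 => tt ℝ p.1 p.2)
  obtain ⟨A, i1, i2, i3, π, hπ⟩ := model (V := V) (Submodule.fg_span (Set.finite_range _)) n
  let v : Fin 4 → Fin 4 → V := fun i j => ⟨tt ℝ i j, Submodule.subset_span ⟨(i, j), rfl⟩⟩
  obtain ⟨T, hT, hs⟩ : ∃ T : ℝ, 0 < T ∧ ∀ i j, ‖π (xc (T • v i j))‖ ≤ 1 / 192 := by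
    obtain ⟨K, hK⟩ := (Set.finite_range fun p : Fin 4 × Fin 4 => ‖π (xc (v p.1 p.2))‖).bddAbove
    have h0 : 0 ≤ K := (norm_nonneg _).trans (hK ⟨(0, 0), rfl⟩)
    have h : 0 < 192 * (K + 1) := by positivity
    refine ⟨(192 * (K + 1))⁻¹, inv_pos.2 h, fun i j => ?_⟩
    have : ‖π (xc (v i j))‖ ≤ K := hK ⟨(i, j), rfl⟩
    rw [map_smul, map_smul, norm_smul, Real.norm_of_nonneg (inv_pos.2 h).le, inv_mul_le_iff₀ h]
    linarith
  let σ : V →ₗ[ℝ] A := π.toLinearMap ∘ₗ xc ∘ₗ (T • LinearMap.id)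
  have hσ : ∀ p, σ p = π (xc (T • p)) := fun _ => rfl
  have hc : ∀ p q : V, Commute (p : RingQuot (Rel ℝ)) q → Commute (σ p) (σ q) := fun p q h => by
    rw [hσ, hσ]
    refine Commute.map (Subtype.ext ?_) π
    rw [xc_mul, xc_mul]
    exact congrArg (fun z => X ^ 2 * C z) ((h.smul_left T).smul_right T).eq
  have hi : ∀ p q : V, IsPhi (σ p) (σ q)
      (π ⟨ser Φ (T • p : V) (T • q : V), ser_mem Φ (T • p).2 (T • q).2⟩) := fun p q => by
    rw [← hπ.tr_eq]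
    exact hΦ n A _ _ (hπ.nil _ _)
  replace hs : ∀ i j, ‖σ (v i j)‖ ≤ 1 / 192 := hs
  have k := core hI hS hP (hs 0 1) (hs 1 2) (hs 2 3) (hs 0 2) (hs 1 3)
    (by simpa only [map_add] using hc (v 0 1) (v 0 2 + v 1 2) (tri 0 1 2 (by decide)))
    (by simpa only [map_add] using hc (v 1 2) (v 0 1 + v 0 2) (by
      have := tri 1 2 0 (by decide); rwa [T49.symm 1 0, T49.symm 2 0] at this))
    (by simpa only [map_add] using hc (v 1 2) (v 1 3 + v 2 3) (tri 1 2 3 (by decide)))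
    (by simpa only [map_add] using hc (v 2 3) (v 1 2 + v 1 3) (by
      have := tri 2 3 1 (by decide); rwa [T49.symm 2 1, T49.symm 3 1] at this))
    (hc (v 2 3) (v 0 1) (far 2 3 0 1 (by decide))) (hc (v 0 2) (v 1 3) (far 0 2 1 3 (by decide)))
    (by simpa only [map_add] using hi (v 0 1) (v 1 2 + v 1 3))
    (by simpa only [map_add] using hi (v 0 2 + v 1 2) (v 2 3))
    (by simpa only [map_add] using hi (v 0 1 + v 0 2) (v 1 3 + v 2 3))
    (hi (v 1 2) (v 2 3))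
    (by simpa only [map_add] using hi (v 1 2 + v 1 3 + v 2 3) (v 0 1))
    (by simpa only [map_add] using hi (v 2 3) (v 0 2 + v 1 2 + v 0 1))
    (hi (v 0 1) (v 1 2)) (hi (v 1 2) (v 0 1))
  rw [← map_mul, ← map_mul, ← map_mul] at k
  have k2 := (hπ _ _).1 k n le_rfl
  simp only [Subalgebra.coe_mul, SetLike.val_smul, ser_smul, sc_mul] at k2
  simp only [sc, coeff_mk] at k2
  exact smul_right_injective _ (pow_ne_zero _ hT.ne') k2

end Pool.Agent.KZ
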