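import Pool.Agent.Lib.KZ.B_UNIV
import Pool.Agent.Lib.KZ.B_INV
import Pool.Agent.Lib.KZ.B_SHIFT
import Pool.Agent.Lib.KZ.Trans49
import Pool.Agent.Lib.KZ.Pent5
import Pool.Agent.Lib.KZ.Sign67b

set_option autoImplicit false

namespace Pool.Agent.KZ

theorem st_KZ : St_KZ :=
  st_KZ_of (st_UNIV K5.st_EX K5.st_UQ st_NAT) (st_TRANS49 K5.st_INV st_SHIFT K5.st_PENT) S67.st_SIGN

end Pool.Agent.KZ
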