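import Pool.Agent.Lib.KZ.B_INV
import Pool.Agent.Lib.KZ.Flat64

set_option autoImplicit false

noncomputable section

open Set Filter Topology Asymptotics

namespace Pool.Agent.KZ

namespace INV

variable {A : Type} [NormedRing A] [NormedAlgebra ℝ A]

/-- A solution that vanishes at one point vanishes. -/
theorem zero_of_point {a b : A} {k : ℝ → A}
    (hk : ∀ z ∈ Ioo (0 : ℝ) 1, HasDerivAt k ((z⁻¹ • a + (z - 1)⁻¹ • b) * k z) z)
    {z₀ : ℝ} (h₀ : z₀ ∈ Ioo (0 : ℝ) 1) (hz₀ : k z₀ = 0) : ∀ z ∈ Ioo (0 : ℝ) 1, k z = 0 := by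
  intro z hz
  rw [← Real.range_sigmoid] at hz h₀
  obtain ⟨t₁, rfl⟩ := hz
  obtain ⟨t₀, rfl⟩ := h₀
  have hs : ∀ t, Real.sigmoid t ∈ Ioo (0 : ℝ) 1 := fun t =>
    ⟨Real.sigmoid_pos t, Real.sigmoid_lt_one t⟩
  have hd : ∀ t, HasDerivAt (fun t => k (Real.sigmoid t))
      (((1 - Real.sigmoid t) • a - Real.sigmoid t • b) * k (Real.sigmoid t)) t := by
    intro t
    have h1 := (hk _ (hs t)).scomp t (Real.hasDerivAt_sigmoid t)
    have h0 := (hs t).1.ne'
    have h2 : Real.sigmoid t - 1 ≠ 0 := sub_ne_zero.2 (hs t).2.ne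
    have e : (Real.sigmoid t * (1 - Real.sigmoid t)) •
        (((Real.sigmoid t)⁻¹ • a + (Real.sigmoid t - 1)⁻¹ • b) * k (Real.sigmoid t)) =
        ((1 - Real.sigmoid t) • a - Real.sigmoid t • b) * k (Real.sigmoid t) := by
      rw [← smul_mul_assoc, smul_add, smul_smul, smul_smul, sub_eq_add_neg (_ • a), ← neg_smul]
      congr 3
      · field_simp
      · field_simp
        ring
    rw [e] at h1
    exact h1
  have hbd : ∀ t, ‖((1 - Real.sigmoid t) • a - Real.sigmoid t • b) * k (Real.sigmoid t)‖ ≤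
      (‖a‖ + ‖b‖) * ‖k (Real.sigmoid t)‖ := by
    intro t
    refine (norm_mul_le _ _).trans (mul_le_mul_of_nonneg_right ?_ (norm_nonneg _))
    refine (norm_sub_le _ _).trans ?_
    rw [norm_smul, norm_smul, Real.norm_of_nonneg (sub_nonneg.2 (hs t).2.le),
      Real.norm_of_nonneg (hs t).1.le]
    nlinarith [(hs t).1, (hs t).2, norm_nonneg a, norm_nonneg b]
  rcases le_total t₀ t₁ with h | h
  · have := gron hd hbd h
    rw [hz₀, norm_zero, zero_mul] at this
    exact norm_le_zero_iff.1 this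
  · have := gron (f := fun t => k (Real.sigmoid (-t))) (K := ‖a‖ + ‖b‖)
      (fun t => (hd (-t)).scomp t (hasDerivAt_neg t))
      (fun t => by rw [neg_one_smul, norm_neg]; exact hbd _) (neg_le_neg h)
    simp only [neg_neg] at this
    rw [hz₀, norm_zero, zero_mul] at this
    exact norm_le_zero_iff.1 this

/-- The reflected solution solves the first equation. -/
theorem refl_deriv {a b : A} {g : ℝ → A} (h : Sol b a g) (C : A) : ∀ z ∈ Ioo (0 : ℝ) 1,
    HasDerivAt (fun z => g (1 - z) * C) ((z⁻¹ • a + (z - 1)⁻¹ • b) * (g (1 - z) * C)) z := by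
  intro z hz
  have hz' : 1 - z ∈ Ioo (0 : ℝ) 1 := ⟨sub_pos.2 hz.2, sub_lt_self _ hz.1⟩
  have h1 := ((h.1 _ hz').scomp z ((hasDerivAt_id z).const_sub 1)).mul_const C
  have e : ((-1 : ℝ) • (((1 - z)⁻¹ • b + (1 - z - 1)⁻¹ • a) * g (1 - z))) * C =
      (z⁻¹ • a + (z - 1)⁻¹ • b) * (g (1 - z) * C) := by
    rw [← smul_mul_assoc, mul_assoc, smul_add, smul_smul, smul_smul, add_comm, sub_sub_cancel_left,
      inv_neg, ← neg_sub z, inv_neg]
    simp
  rw [e] at h1
  exact h1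

variable [CompleteSpace A]

/-- Existence of the solution. -/
theorem exists_sol {a b : A} (ha : ‖a‖ ≤ 1 / 16) (hb : ‖b‖ ≤ 1 / 16) : ∃ g, Sol a b g := by
  have n0 : ‖(0 : A)‖ ≤ 1 / 16 := by rw [norm_zero]; norm_num
  obtain ⟨H, Hx, Hy, h0, h⟩ := H64.flat64 (a := a) (b := 0) (d := b) (e := 0) (f := 0)
    (Commute.zero_right _) (Commute.zero_right _) (Commute.zero_right _)
    (by rw [add_zero]; exact Commute.zero_right _) (Commute.zero_right _) (by simp) ha n0 hb n0 n0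
  have a0 : |(0 : ℝ)| < 1 := by simp
  have hd : ∀ x, |x| < 1 → HasDerivAt (fun t => H t 0) (Hx x 0) x := by
    intro x hx
    simpa using (h x 0 hx a0).1 (fun t => t) (fun _ => 0) 1 0 x rfl rfl (hasDerivAt_id x)
      (hasDerivAt_const x 0)
  refine ⟨fun z => H z 0 * NormedSpace.exp (Real.log z • a), fun z hz => ?_, ?_⟩
  · have hx : |z| < 1 := by rw [abs_of_pos hz.1]; exact hz.2
    have h1 := (hd z hx).mul ((hasDerivAt_exp_smul_const' (𝕂 := ℝ) a (Real.log z)).scomp z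
      (Real.hasDerivAt_log hz.1.ne'))
    have h2 := (h z 0 hx a0).2.1
    rw [zero_mul, smul_zero, sub_zero] at h2
    have h3 : Hx z 0 = z⁻¹ • (a * H z 0 - H z 0 * a - (z / (1 - z)) • (b * H z 0)) := by
      rw [← h2, smul_smul, inv_mul_cancel₀ hz.1.ne', one_smul]
    have h4 : z⁻¹ * (z / (1 - z)) = -(z - 1)⁻¹ := by
      have := hz.1.ne'
      rw [← inv_neg, neg_sub]
      field_simp
    have e : Hx z 0 * NormedSpace.exp (Real.log z • a) +
        H z 0 * z⁻¹ • (a * NormedSpace.exp (Real.log z • a)) =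
        (z⁻¹ • a + (z - 1)⁻¹ • b) * (H z 0 * NormedSpace.exp (Real.log z • a)) := by
      rw [h3, smul_sub, smul_sub, smul_smul, h4]
      simp only [sub_mul, add_mul, smul_mul_assoc, mul_smul_comm, mul_assoc, neg_smul, neg_mul]
      abel
    rw [← e]
    exact h1
  · have h1 := ((hd 0 a0).isBigO_sub).mono (nhdsWithin_le_nhds (s := Ioi 0))
    refine h1.congr (fun z => ?_) fun z => sub_zero z
    have := exp_neg_mul (-Real.log z • a)
    rw [← neg_smul, neg_neg] at this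
    rw [h0, mul_assoc, this, mul_one]

/-- Two solutions at the two ends are connected by a constant. -/
theorem exists_conn {a b : A} {g₀ g₁ : ℝ → A} (h₀ : Sol a b g₀) (h₁ : Sol b a g₁) :
    ∃ C, ∀ z ∈ Ioo (0 : ℝ) 1, g₀ z = g₁ (1 - z) * C := by
  obtain ⟨u, hu, v, hv⟩ := exists_unit h₁
  have hu' : 1 - u ∈ Ioo (0 : ℝ) 1 := ⟨sub_pos.2 hu.2, sub_lt_self _ hu.1⟩
  refine ⟨↑v⁻¹ * g₀ (1 - u), fun z hz => sub_eq_zero.1 ?_⟩
  refine zero_of_point (a := a) (b := b)
    (k := fun z => g₀ z - g₁ (1 - z) * (↑v⁻¹ * g₀ (1 - u))) (fun z hz => ?_) hu' ?_ z hz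
  · rw [mul_sub]
    exact (h₀.1 z hz).sub (refl_deriv h₁ _ z hz)
  · rw [sub_sub_cancel, ← hv, Units.mul_inv_cancel_left, sub_self]

end INV

open INV

theorem st_EX' : St_EX := by
  intro A _ _ _ a b ha hb
  have ha' : ‖a‖ ≤ 1 / 16 := le_trans ha (by norm_num)
  have hb' : ‖b‖ ≤ 1 / 16 := le_trans hb (by norm_num)
  obtain ⟨g₀, h₀⟩ := exists_sol ha' hb'
  obtain ⟨g₁, h₁⟩ := exists_sol hb' ha'
  obtain ⟨C, h⟩ := exists_conn h₀ h₁
  exact ⟨C, g₀, g₁, h₀, h₁, h⟩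

end Pool.Agent.KZ
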