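import Pool.Agent.Lib.KZ.Fd49
import Mathlib.Tactic.NoncommRing

set_option autoImplicit false

noncomputable section

open Pool.Agent.DR PowerSeries

namespace Pool.Agent.KZ

theorem pent_banach (hI : St_INV) (hS : St_SHIFT) (hP : St_PENT) {A : Type} [NormedRing A]
    [NormedAlgebra ℝ A] [CompleteSpace A] {e f b g c U U' Y Y' Z C₂ C₅ C₅' : A}
    (ne : ‖e‖ ≤ 1 / 192) (nf : ‖f‖ ≤ 1 / 192) (nb : ‖b‖ ≤ 1 / 192) (ng : ‖g‖ ≤ 1 / 192)
    (nc : ‖c‖ ≤ 1 / 192) (h1 : Commute e c) (h2 : Commute f g) (h3 : Commute e (f + b))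
    (h4 : Commute b (e + f)) (h5 : Commute b (g + c)) (h6 : Commute c (b + g))
    (pU : IsPhi e (b + g) U) (pU' : IsPhi (b + g) e U')
    (pY : IsPhi (f + b) c Y) (pY' : IsPhi c (f + b) Y') (pZ : IsPhi (e + f) (g + c) Z)
    (p2 : IsPhi b c C₂) (p5 : IsPhi e b C₅) (p5' : IsPhi b e C₅') : U * Y = C₂ * Z * C₅ := by
  have s1 : ∀ {x : A}, ‖x‖ ≤ 1 / 192 → Sm x := fun h => h.trans (by norm_num)
  have s2 : ∀ {x y : A}, ‖x‖ ≤ 1 / 192 → ‖y‖ ≤ 1 / 192 → Sm (x + y) := fun {x y} h h' =>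
    (norm_add_le x y).trans (by linarith)
  have s3 : ∀ {x y z : A}, ‖x‖ ≤ 1 / 192 → ‖y‖ ≤ 1 / 192 → ‖z‖ ≤ 1 / 192 → Sm (x + y + z) :=
    fun {x y z} h h' h'' => (norm_add₃_le (a := x) (b := y) (c := z)).trans (by linarith)
  have q3 : IsPhi (b + g + c) e U' := (hS A _ _ c _ (s2 nb ng) (s1 ne) h6 h1.symm pU').1
  have q4 : IsPhi c (e + f + b) Y' := by
    have := (hS A _ _ e _ (s1 nc) (s2 nf nb) h1 h3 pY').2
    rwa [show f + b + e = e + f + b by abel] at this
  have ba : Commute b (e + f + b) := h4.add_right (Commute.refl b)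
  have q1 : IsPhi (e + f + b) (b + g + c) Z := by
    have := (hS A _ _ b _ (s3 ne nf nb) (s2 ng nc) ba h5
      (hS A _ _ b _ (s2 ne nf) (s2 ng nc) h4 h5 pZ).1).2
    rwa [show g + c + b = b + g + c by abel] at this
  have bd : Commute b (b + g + c) := by
    rw [add_assoc]; exact (Commute.refl b).add_right h5
  have ea : Commute e (e + f + b) := by
    rw [add_assoc]; exact (Commute.refl e).add_right h3
  have key := hP A (e + f + b) b (b + g + c) c e Z C₂ U' Y' C₅ (s3 ne nf nb) (s1 nb) (s3 nb ng nc)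
    (s1 nc) (s1 ne) ba.symm bd (h6.add_right (Commute.refl c)).symm h1.symm ea (by
      have a1 := h1.eq
      have a2 := h2.eq
      have a4 := h4.eq
      have a5 := h5.eq
      have : (e + f + b) * c - c * (e + f + b) + (c * b - b * c) + (b * e - e * b) +
          (e * (b + g + c) - (b + g + c) * e) + ((b + g + c) * (e + f + b) -
          (e + f + b) * (b + g + c)) = (e * c - c * e) - (f * g - g * f) +
          (b * (e + f) - (e + f) * b) - (b * (g + c) - (g + c) * b) := by noncomm_ring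
      rw [this, a1, a2, a4, a5]
      simp) q1 p2 q3 q4 p5
  have i1 := hI A _ _ _ _ (s1 ne) (s2 nb ng) pU pU'
  have i2 := hI A _ _ _ _ (s2 nf nb) (s1 nc) pY pY'
  have i3 := hI A _ _ _ _ (s1 nb) (s1 ne) p5' p5
  have k2 : Y' * U' * C₂ * Z = C₅' := by
    have := congrArg (C₅' * ·) key
    simpa only [← mul_assoc, i3, one_mul, mul_one] using this
  calc U * Y = U * Y * (Y' * U' * C₂ * Z * C₅) := by rw [k2, i3, mul_one]
    _ = U * (Y * Y') * U' * C₂ * Z * C₅ := by simp only [mul_assoc]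
    _ = C₂ * Z * C₅ := by rw [i2, mul_one, i1, one_mul]

theorem tt_symm (i j : Fin 4) : tt ℝ i j = tt ℝ j i := RingQuot.mkAlgHom_rel ℝ (Rel.symm i j)

theorem tt_tri {i j k : Fin 4} (h : [i, j, k].Nodup) :
    Commute (tt ℝ i j) (tt ℝ i k + tt ℝ j k) := by
  have := RingQuot.mkAlgHom_rel ℝ (Rel.tri (R := ℝ) i j k h)
  simp only [map_mul, map_add] at this
  exact this

theorem tt_far {i j k l : Fin 4} (h : [i, j, k, l].Nodup) : Commute (tt ℝ i j) (tt ℝ k l) := by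
  have := RingQuot.mkAlgHom_rel ℝ (Rel.far (R := ℝ) i j k l h)
  simp only [map_mul] at this
  exact this

theorem sc_mul {B : Type} [Ring B] [Algebra ℝ B] {T : ℝ} {F F' G G' : PowerSeries B}
    (h : ∀ n, coeff n F = T ^ n • coeff n F') (h' : ∀ n, coeff n G = T ^ n • coeff n G') (n : ℕ) :
    coeff n (F * G) = T ^ n • coeff n (F' * G') := by
  rw [coeff_mul, coeff_mul, Finset.smul_sum]
  refine Finset.sum_congr rfl fun p hp => ?_
  rw [h, h', smul_mul_smul_comm, ← pow_add, Finset.mem_antidiagonal.1 hp]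

theorem pent_model (hI : St_INV) (hS : St_SHIFT) (hP : St_PENT) {Φ : List Bool → ℝ} (hΦ : Univ Φ)
    {B : Type} [Ring B] [Algebra ℝ B] {V : Submodule ℝ B} (hV : V.FG) (e f b g c : V)
    (h1 : Commute (e : B) c) (h2 : Commute (f : B) g) (h3 : Commute (e : B) (f + b : V))
    (h4 : Commute (b : B) (e + f : V)) (h5 : Commute (b : B) (g + c : V))
    (h6 : Commute (c : B) (b + g : V)) :
    ser Φ (e : B) (b + g : V) * ser Φ ((f + b : V) : B) c =
      ser Φ (b : B) c * ser Φ ((e + f : V) : B) (g + c : V) * ser Φ (e : B) b := by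
  ext n
  obtain ⟨A, _, _, _, π, hπ⟩ := model hV n
  obtain ⟨K, hK⟩ := ((Set.toFinite {e, f, b, g, c}).image fun p : V => ‖π (xc p)‖).bddAbove
  have K0 : 0 < |K| + 1 := by positivity
  obtain ⟨T, hT⟩ : ∃ T : ℝ, T = 1 / (192 * (|K| + 1)) := ⟨_, rfl⟩
  have T0 : 0 < T := by rw [hT]; positivity
  obtain ⟨x, hx⟩ : ∃ x : V → A, ∀ p, x p = π (xc (T • p)) := ⟨_, fun _ => rfl⟩
  obtain ⟨y, hy⟩ : ∃ y : V → V → A, ∀ p q, y p q =
      π ⟨ser Φ ((T • p : V) : B) (T • q : V), ser_mem Φ (T • p).2 (T • q).2⟩ := ⟨_, fun _ _ => rfl⟩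
  have nx : ∀ p ∈ ({e, f, b, g, c} : Set V), ‖x p‖ ≤ 1 / 192 := fun p hp => by
    have : ‖π (xc p)‖ ≤ |K| + 1 := (hK ⟨p, hp, rfl⟩).trans (by linarith [le_abs_self K])
    rw [hx, map_smul, map_smul, norm_smul, Real.norm_of_nonneg T0.le]
    refine (mul_le_mul_of_nonneg_left this T0.le).trans (le_of_eq ?_)
    rw [hT]; field_simp
  have cm : ∀ {p q : V}, Commute (p : B) q → Commute (x p) (x q) := fun {p q} h => by
    rw [hx, hx]
    refine Commute.map (Subtype.ext ?_) π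
    rw [xc_mul, xc_mul, Submodule.coe_smul, Submodule.coe_smul, ((h.smul_left T).smul_right T).eq]
  have ad : ∀ p q : V, x p + x q = x (p + q) := fun p q => by
    rw [hx, hx, hx, smul_add, map_add, map_add]
  have ph : ∀ p q : V, IsPhi (x p) (x q) (y p q) := fun p q => by
    rw [hx, hx, hy, ← hπ.tr_eq]; exact hΦ n A _ _ (hπ.nil _ _)
  have key : y e (b + g) * y (f + b) c = y b c * y (e + f) (g + c) * y e b :=
    pent_banach hI hS hP (U' := y (b + g) e) (Y' := y c (f + b)) (C₅' := y b e)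
      (nx e (by simp)) (nx f (by simp)) (nx b (by simp)) (nx g (by simp)) (nx c (by simp))
      (cm h1) (cm h2) (by rw [ad]; exact cm h3) (by rw [ad]; exact cm h4)
      (by rw [ad]; exact cm h5) (by rw [ad]; exact cm h6) (by rw [ad]; exact ph _ _)
      (by rw [ad]; exact ph _ _) (by rw [ad]; exact ph _ _) (by rw [ad]; exact ph _ _)
      (by rw [ad, ad]; exact ph _ _) (ph _ _) (ph _ _) (ph _ _)
  simp only [hy, ← map_mul] at key
  have k2 := (hπ _ _).1 key n le_rfl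
  simp only [Subalgebra.coe_mul, Submodule.coe_smul] at k2
  rw [sc_mul (coeff_ser_smul Φ T _ _) (coeff_ser_smul Φ T _ _),
    sc_mul (sc_mul (coeff_ser_smul Φ T _ _) (coeff_ser_smul Φ T _ _)) (coeff_ser_smul Φ T _ _)] at k2
  exact smul_right_injective _ (pow_ne_zero n T0.ne') k2

theorem st_TRANS (hI : St_INV) (hS : St_SHIFT) (hP : St_PENT) : St_TRANS := by
  intro Φ hΦ
  let V : Submodule ℝ (RingQuot (Rel ℝ)) :=
    Submodule.span ℝ (Set.range fun p : Fin 4 × Fin 4 => tt ℝ p.1 p.2)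
  let v : Fin 4 → Fin 4 → V := fun i j => ⟨tt ℝ i j, Submodule.subset_span ⟨(i, j), rfl⟩⟩
  refine pent_model hI hS hP hΦ (Submodule.fg_span (Set.finite_range _)) (v 0 1) (v 0 2) (v 1 2)
    (v 1 3) (v 2 3) (tt_far (by decide)) (tt_far (by decide)) (tt_tri (by decide)) ?_
    (tt_tri (by decide)) ?_
  · change Commute (tt ℝ 1 2) (tt ℝ 0 1 + tt ℝ 0 2)
    rw [tt_symm 0 1, tt_symm 0 2]; exact tt_tri (by decide)
  · change Commute (tt ℝ 2 3) (tt ℝ 1 2 + tt ℝ 1 3)
    rw [tt_symm 1 2, tt_symm 1 3]; exact tt_tri (by decide)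

end Pool.Agent.KZ
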