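import Pool.Agent.Lib.KZ.Fd49
import Pool.Agent.Lib.DR.Api
import Mathlib.Algebra.MonoidAlgebra.Basic

set_option autoImplicit false

noncomputable section

open Pool.Agent.DR PowerSeries Finset

namespace Pool.Agent.KZ

namespace UNIV

theorem tr_W {B : Type} [Ring B] [Algebra ℝ B] (Φ : List Bool → ℝ) (N : ℕ) (p q : B) :
    tr Φ N p q = ∑ n ∈ range (N + 1), ∑ u ∈ W n, Φ u • wd p q u := by
  simp only [tr, W, sum_map]
  rfl

/-- Long words vanish. -/
def rel (N : ℕ) (f g : FreeAlgebra ℝ Bool) : Prop :=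
  ∃ u : List Bool, N < u.length ∧ f = wd (FreeAlgebra.ι ℝ false) (FreeAlgebra.ι ℝ true) u ∧ g = 0

/-- The truncated free algebra. -/
abbrev U (N : ℕ) : Type := RingQuot (rel N)

/-- The generators. -/
def gen (N : ℕ) (s : Bool) : U N := RingQuot.mkAlgHom ℝ (rel N) (FreeAlgebra.ι ℝ s)

theorem nil_gen (N : ℕ) : Nil N (gen N false) (gen N true) := fun u hu => by
  rw [gen, gen, ← wd_map, RingQuot.mkAlgHom_rel ℝ (s := rel N) ⟨u, hu, rfl, rfl⟩, map_zero]

theorem span_top (N : ℕ) (z : U N) :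
    z ∈ Submodule.span ℝ (Set.range (wd (gen N false) (gen N true))) := by
  obtain ⟨f, rfl⟩ := RingQuot.mkAlgHom_surjective ℝ (rel N) z
  induction f using FreeAlgebra.induction with
  | grade0 r =>
    rw [AlgHom.commutes, Algebra.algebraMap_eq_smul_one]
    exact Submodule.smul_mem _ _ (Submodule.subset_span ⟨[], rfl⟩)
  | grade1 s => exact Submodule.subset_span ⟨[s], by cases s <;> simp [gen]⟩
  | mul a b ha hb =>
    rw [map_mul]
    have := Submodule.mul_mem_mul ha hb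
    rw [Submodule.span_mul_span] at this
    refine Submodule.span_mono ?_ this
    rintro _ ⟨_, ⟨u, rfl⟩, _, ⟨v, rfl⟩, rfl⟩
    exact ⟨u ++ v, wd_append _ _ _ _⟩
  | add a b ha hb => rw [map_add]; exact add_mem ha hb

theorem exists_tr {B : Type} [Ring B] [Algebra ℝ B] {N : ℕ} {p q : B} (h : Nil N p q) {z : B}
    (hz : z ∈ Submodule.span ℝ (Set.range (wd p q))) : ∃ Ψ, z = tr Ψ N p q := by
  classical
  induction hz using Submodule.span_induction with
  | mem _ hx =>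
    obtain ⟨u, rfl⟩ := hx
    by_cases hu : N < u.length
    · exact ⟨0, by simp [tr, h u hu]⟩
    · refine ⟨Pi.single u 1, ?_⟩
      rw [tr_W, sum_eq_single u.length (fun n _ hn => sum_eq_zero fun v hv => ?_)
        (fun h' => absurd (mem_range.2 (by omega)) h'),
        sum_eq_single u (fun v _ hv => by simp [hv]) (fun h' => absurd (mem_W.2 rfl) h')]
      · simp
      · rw [Pi.single_eq_of_ne fun e => hn (by rw [← mem_W.1 hv, e]), zero_smul]
  | zero => exact ⟨0, by simp [tr]⟩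
  | add _ _ _ _ h1 h2 =>
    obtain ⟨a, rfl⟩ := h1
    obtain ⟨b, rfl⟩ := h2
    exact ⟨a + b, by simp [tr, add_smul, sum_add_distrib]⟩
  | smul r _ _ h1 =>
    obtain ⟨a, rfl⟩ := h1
    exact ⟨r • a, by simp [tr, smul_sum, smul_smul]⟩

instance finite (N : ℕ) : Module.Finite ℝ (U N) := by
  classical
  refine ⟨⟨((range (N + 1)).biUnion W).image (wd (gen N false) (gen N true)),
    eq_top_iff.2 fun z _ => ?_⟩⟩
  obtain ⟨Ψ, rfl⟩ := exists_tr (nil_gen N) (span_top N z)
  rw [tr_W]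
  refine Submodule.sum_mem _ fun n hn => Submodule.sum_mem _ fun u hu =>
    Submodule.smul_mem _ _ (Submodule.subset_span ?_)
  exact mem_coe.2 (mem_image_of_mem _ (mem_biUnion.2 ⟨n, hn, hu⟩))

theorem exists_hom {B : Type} [Ring B] [Algebra ℝ B] {N : ℕ} {p q : B} (h : Nil N p q) :
    ∃ ρ : U N →ₐ[ℝ] B, ρ (gen N false) = p ∧ ρ (gen N true) = q := by
  refine ⟨RingQuot.liftAlgHom ℝ ⟨FreeAlgebra.lift ℝ fun s => if s then q else p, ?_⟩, ?_, ?_⟩
  · rintro _ _ ⟨u, hu, rfl, rfl⟩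
    rw [wd_map, map_zero]
    simpa using h u hu
  · simp [gen]
  · simp [gen]

theorem exists_small {A : Type} [NormedRing A] [NormedAlgebra ℝ A] (a b : A) :
    ∃ T : ℝ, 0 < T ∧ Sm (T • a) ∧ Sm (T • b) := by
  have ha := norm_nonneg a
  have hb := norm_nonneg b
  have h : 0 < 64 * (‖a‖ + ‖b‖ + 1) := by positivity
  refine ⟨(64 * (‖a‖ + ‖b‖ + 1))⁻¹, inv_pos.2 h, ?_, ?_⟩ <;>
  · rw [Sm, norm_smul, Real.norm_of_nonneg (inv_pos.2 h).le, inv_mul_le_iff₀ h]
    linarith

theorem nil_smul {B : Type} [Ring B] [Algebra ℝ B] {N : ℕ} {p q : B} (h : Nil N p q) (T : ℝ) :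
    Nil N (T • p) (T • q) := fun u hu => by rw [wd_smul, h u hu, smul_zero]

/-- The coefficients up to degree `N`. -/
def Lev (N : ℕ) (Φ : List Bool → ℝ) : Prop :=
  ∀ (A : Type) [NormedRing A] [NormedAlgebra ℝ A] [CompleteSpace A] (a b : A),
    Nil N a b → IsPhi a b (tr Φ N a b)

theorem exists_lev (hE : St_EX) (hN : St_NAT) (N : ℕ) : ∃ Φ, Lev N Φ := by
  obtain ⟨A₀, i1, i2, i3, i4, ⟨e⟩⟩ := exists_banach (U N)
  obtain ⟨T, hT, h1, h2⟩ := exists_small (e (gen N false)) (e (gen N true))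
  obtain ⟨C, hC⟩ := hE A₀ _ _ h1 h2
  obtain ⟨Ψ, hΨ⟩ := exists_tr (nil_gen N) (span_top N (e.symm C))
  refine ⟨fun u => T⁻¹ ^ u.length * Ψ u, fun A _ _ _ a b hab => ?_⟩
  obtain ⟨ρ, r1, r2⟩ := exists_hom (nil_smul hab T⁻¹)
  have := hN A₀ A (ρ.comp e.symm.toAlgHom) _ _ _
    (ρ.comp e.symm.toAlgHom).toLinearMap.continuous_of_finiteDimensional hC
  have h3 : ∀ z, (ρ.comp e.symm.toAlgHom) (T • e z) = T • ρ z := fun z => by simp
  have h4 : (ρ.comp e.symm.toAlgHom) C = tr (fun u => T⁻¹ ^ u.length * Ψ u) N a b := by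
    change ρ (e.symm C) = _
    rw [hΨ, tr_map, r1, r2]
    simp only [tr, wd_smul, smul_smul, mul_comm]
  rwa [h3, h3, h4, r1, r2, smul_smul, smul_smul, mul_inv_cancel₀ hT.ne', one_smul, one_smul] at this

theorem wd_single (u : List Bool) :
    wd (MonoidAlgebra.single (FreeMonoid.of false) (1 : ℝ))
      (MonoidAlgebra.single (FreeMonoid.of true) (1 : ℝ)) u =
      MonoidAlgebra.single (FreeMonoid.ofList u) 1 := by
  induction u with
  | nil => rfl
  | cons s u ih =>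
    rw [wd_cons, ih]
    cases s <;> simp [MonoidAlgebra.single_mul_single]

theorem compat (hU : St_UQ) {M N : ℕ} {Φ Ψ : List Bool → ℝ} (hΦ : Lev M Φ) (hΨ : Lev N Ψ)
    (h : M ≤ N) (u : List Bool) (hu : u.length ≤ M) : Φ u = Ψ u := by
  classical
  let x : MonoidAlgebra ℝ (FreeMonoid Bool) := MonoidAlgebra.single (FreeMonoid.of false) 1
  let y : MonoidAlgebra ℝ (FreeMonoid Bool) := MonoidAlgebra.single (FreeMonoid.of true) 1
  let V := Submodule.span ℝ ({x, y} : Set _)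
  obtain ⟨A, i1, i2, i3, π, hπ⟩ := model (V := V) (Submodule.fg_span (Set.toFinite _)) M
  let p : V := ⟨x, Submodule.subset_span (by simp)⟩
  let q : V := ⟨y, Submodule.subset_span (by simp)⟩
  obtain ⟨T, hT, h1, h2⟩ := exists_small (π (xc p)) (π (xc q))
  rw [← map_smul, ← map_smul] at h1 h2
  have hn := hπ.nil (T • p) (T • q)
  have h3 := hU A _ _ _ _ h1 h2 (hΦ A _ _ hn) (hΨ A _ _ fun v hv => hn v (by omega))
  have h4 : tr Ψ N (π (xc (T • p))) (π (xc (T • q))) = tr Ψ M (π (xc (T • p))) (π (xc (T • q))) := by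
    rw [tr_W, tr_W]
    refine (sum_subset (range_mono (by omega)) fun n _ hn' => sum_eq_zero fun v hv => ?_).symm
    rw [hn v (by rw [mem_W.1 hv]; simpa using hn'), smul_zero]
  rw [h4, hπ.tr_eq, hπ.tr_eq] at h3
  have h5 := (hπ _ _).1 h3 _ hu
  simp only [SetLike.val_smul, coeff_ser_smul] at h5
  have h6 := smul_right_injective _ (pow_ne_zero _ hT.ne') h5
  have key : ∀ Θ : List Bool → ℝ,
      (coeff u.length (ser Θ x y)).coeff (FreeMonoid.ofList u) = Θ u := fun Θ => by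
    rw [coeff_ser]
    simp only [x, y, wd_single, MonoidAlgebra.smul_single, smul_eq_mul, mul_one,
      MonoidAlgebra.coeff_sum, Finsupp.finsetSum_apply, MonoidAlgebra.coeff_single]
    rw [sum_eq_single u (fun v _ hv => Finsupp.single_eq_of_ne
      fun e => hv (FreeMonoid.ofList.injective e).symm) (fun h' => absurd (mem_W.2 rfl) h')]
    simp
  rw [← key Φ, ← key Ψ]
  exact congrArg (fun F => MonoidAlgebra.coeff F (FreeMonoid.ofList u)) h6

theorem isPhi_zero : IsPhi (0 : ℝ) 0 1 := by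
  have h : Sol (0 : ℝ) 0 fun _ => 1 :=
    ⟨fun z _ => by simpa using hasDerivAt_const z (1 : ℝ), by
      simpa using Asymptotics.isBigO_zero _ _⟩
  exact ⟨_, _, h, h, by simp⟩

end UNIV

open UNIV in
theorem st_UNIV (hE : St_EX) (hU : St_UQ) (hN : St_NAT) : St_UNIV := by
  choose Φ hΦ using exists_lev hE hN
  refine ⟨fun u => Φ u.length u, ?_, fun N A _ _ _ a b hab => ?_⟩
  · have hs : Sm (0 : ℝ) := by simp [Sm]
    have h0 : Nil 0 (0 : ℝ) 0 := fun u hu => by
      rcases u with _ | ⟨s, u⟩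
      · simp at hu
      · rw [wd_cons]; simp
    have := hU ℝ 0 0 _ _ hs hs (hΦ 0 ℝ 0 0 h0) isPhi_zero
    simpa [tr_W, W_zero] using this
  · have : tr (fun u => Φ u.length u) N a b = tr (Φ N) N a b := by
      rw [tr_W, tr_W]
      refine sum_congr rfl fun n hn => sum_congr rfl fun u hu => ?_
      rw [compat hU (hΦ u.length) (hΦ N) (by rw [mem_W.1 hu]; simpa [Nat.lt_succ_iff] using hn) u
        le_rfl]
    rw [this]
    exact hΦ N A a b hab

end Pool.Agent.KZ
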