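import Pool.Agent.Lib.KZ.Blue
import Mathlib.RingTheory.Congruence.Basic
import Mathlib.RingTheory.Finiteness.Subalgebra
import Mathlib.Analysis.Normed.Module.FiniteDimension
import Mathlib.LinearAlgebra.Matrix.ToLin

set_option autoImplicit false

noncomputable section

open Pool.Agent.DR PowerSeries

namespace Pool.Agent.KZ

/-- A finite dimensional real algebra is a Banach algebra. -/
theorem exists_banach (S : Type) [Ring S] [Algebra ℝ S] [Module.Finite ℝ S] :
    ∃ (A : Type) (_ : NormedRing A) (_ : NormedAlgebra ℝ A) (_ : CompleteSpace A)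
      (_ : FiniteDimensional ℝ A), Nonempty (S ≃ₐ[ℝ] A) := by
  let b := Module.finBasis ℝ S
  let f : S →ₐ[ℝ] ((Fin (Module.finrank ℝ S) → ℝ) →L[ℝ] (Fin (Module.finrank ℝ S) → ℝ)) :=
    ((Module.End.toContinuousLinearMap _).toAlgHom.comp
      (Matrix.toLinAlgEquiv' (R := ℝ)).toAlgHom).comp (Algebra.leftMulMatrix b)
  have hf : Function.Injective f :=
    ((Module.End.toContinuousLinearMap _).injective.comp
      (Matrix.toLinAlgEquiv' (R := ℝ)).injective).comp (Algebra.leftMulMatrix_injective b)
  have e := AlgEquiv.ofInjective f hf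
  have : FiniteDimensional ℝ f.range := e.toLinearEquiv.finiteDimensional
  exact ⟨f.range, inferInstance, inferInstance, FiniteDimensional.complete ℝ _, inferInstance, ⟨e⟩⟩

theorem wd_map {B B' : Type} [Ring B] [Ring B'] [Algebra ℝ B] [Algebra ℝ B'] (f : B →ₐ[ℝ] B')
    (p q : B) (u : List Bool) : f (wd p q u) = wd (f p) (f q) u := by
  induction u with
  | nil => simp [wd]
  | cons s u ih =>
    simp only [wd, List.map_cons, List.prod_cons, map_mul] at ih ⊢
    rw [ih]; cases s <;> simp

theorem wd_cons {B : Type} [Monoid B] (p q : B) (s : Bool) (u : List Bool) :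
    wd p q (s :: u) = (if s then q else p) * wd p q u := by simp [wd]

theorem wd_smul {B : Type} [Ring B] [Algebra ℝ B] (T : ℝ) (p q : B) (u : List Bool) :
    wd (T • p) (T • q) u = T ^ u.length • wd p q u := by
  induction u with
  | nil => simp [wd]
  | cons s u ih =>
    rw [wd_cons, wd_cons, ih, List.length_cons, pow_succ]
    cases s <;> simp [smul_smul, mul_comm]

theorem tr_map {B B' : Type} [Ring B] [Ring B'] [Algebra ℝ B] [Algebra ℝ B'] (f : B →ₐ[ℝ] B')
    (Φ : List Bool → ℝ) (N : ℕ) (p q : B) : f (tr Φ N p q) = tr Φ N (f p) (f q) := by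
  simp only [tr, map_sum, map_smul, wd_map]

variable {B : Type} [Ring B] [Algebra ℝ B] (V : Submodule ℝ B)

/-- Series whose coefficient of degree `n` lies in `V ^ n`. -/
def Gr : Subalgebra ℝ (PowerSeries B) where
  carrier := {F | ∀ n, coeff n F ∈ V ^ n}
  mul_mem' := fun {F G} hF hG n => by
    rw [coeff_mul]
    refine Submodule.sum_mem _ fun p hp => ?_
    rw [← Finset.mem_antidiagonal.1 hp, pow_add]
    exact Submodule.mul_mem_mul (hF _) (hG _)
  add_mem' := fun {F G} hF hG n => by rw [map_add]; exact add_mem (hF n) (hG n)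
  algebraMap_mem' := fun r n => by
    rw [algebraMap_apply, coeff_C]
    split_ifs with h
    · subst h; exact Submodule.algebraMap_mem r
    · exact zero_mem _

variable {V}

theorem wd_mem_pow {p q : B} (hp : p ∈ V) (hq : q ∈ V) (u : List Bool) :
    wd p q u ∈ V ^ u.length := by
  induction u with
  | nil => exact Submodule.one_le.1 (pow_zero V).ge
  | cons s u ih =>
    rw [wd_cons, List.length_cons, pow_succ']
    exact Submodule.mul_mem_mul (by cases s <;> simpa) ih

theorem ser_mem (Φ : List Bool → ℝ) {p q : B} (hp : p ∈ V) (hq : q ∈ V) : ser Φ p q ∈ Gr V :=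
  fun n => by
    rw [ser, coeff_mk]
    refine Submodule.sum_mem _ fun u _ => Submodule.smul_mem _ _ ?_
    have := wd_mem_pow hp hq u.toList
    rwa [List.Vector.toList_length] at this

/-- The elements of degree one. -/
def xc : V →ₗ[ℝ] Gr V where
  toFun p := ⟨X * C (p : B), fun n => by
    cases n with
    | zero => simp
    | succ n =>
      rw [coeff_succ_X_mul, coeff_C]
      split_ifs with h
      · subst h; simp
      · exact zero_mem _⟩
  map_add' p q := Subtype.ext (by simp [mul_add])
  map_smul' r p := Subtype.ext (by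
    simp only [SetLike.val_smul, RingHom.id_apply]
    rw [← mul_smul_comm, Algebra.smul_def, Algebra.smul_def, map_mul, algebraMap_apply])

theorem xc_val (p : V) : (xc p : Gr V).1 = X * C (p : B) := rfl

theorem xc_mul (p q : V) : (xc p * xc q : Gr V).1 = X ^ 2 * C ((p : B) * q) := by
  rw [Subalgebra.coe_mul, xc_val, xc_val, map_mul, pow_two, mul_assoc, ← mul_assoc (C (p : B)),
    ← (commute_X (C (p : B))).symm.eq, mul_assoc, mul_assoc]

theorem wd_xc (p q : V) (u : List Bool) :
    (wd (xc p) (xc q) u : Gr V).1 = X ^ u.length * C (wd (p : B) q u) := by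
  induction u with
  | nil => simp [wd]
  | cons s u ih =>
    rw [wd_cons, wd_cons, Subalgebra.coe_mul, ih, List.length_cons, pow_succ', map_mul]
    have h : ∀ r : B, X * C r * (X ^ u.length * C (wd (p : B) q u)) =
        X * X ^ u.length * (C r * C (wd (p : B) q u)) := fun r => by
      rw [mul_assoc, ← mul_assoc (C r), (commute_X_pow (C r) u.length).eq, mul_assoc, mul_assoc]
    cases s
    · exact h p
    · exact h q

/-- A Banach model of the series modulo degree `N + 1`. -/
def Mod {A : Type} [Ring A] [Algebra ℝ A] (N : ℕ) (π : Gr V →ₐ[ℝ] A) : Prop :=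
  ∀ F G : Gr V, π F = π G ↔ ∀ n ≤ N, coeff n F.1 = coeff n G.1

theorem model (hV : V.FG) (N : ℕ) : ∃ (A : Type) (_ : NormedRing A) (_ : NormedAlgebra ℝ A)
    (_ : CompleteSpace A) (π : Gr V →ₐ[ℝ] A), Mod N π := by
  let c : RingCon (Gr V) :=
    { r := fun F G => ∀ n ≤ N, coeff n F.1 = coeff n G.1
      iseqv := ⟨fun _ _ _ => rfl, fun h n hn => (h n hn).symm,
        fun h h' n hn => (h n hn).trans (h' n hn)⟩
      mul' := fun {F F' G G'} h h' n hn => by
        rw [Subalgebra.coe_mul, Subalgebra.coe_mul, coeff_mul, coeff_mul]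
        refine Finset.sum_congr rfl fun p hp => ?_
        have := Finset.mem_antidiagonal.1 hp
        rw [h p.1 (by omega), h' p.2 (by omega)]
      add' := fun {F F' G G'} h h' n hn => by
        rw [Subalgebra.coe_add, Subalgebra.coe_add, map_add, map_add, h n hn, h' n hn] }
  have : ∀ n : ℕ, Module.Finite ℝ ↥(V ^ n) := fun n => Module.Finite.iff_fg.2 (hV.pow n)
  let j : ∀ n : Fin (N + 1), ↥(V ^ (n : ℕ)) →ₗ[ℝ] Gr V := fun n =>
    { toFun := fun p => ⟨monomial n (p : B), fun m => by
        rw [coeff_monomial]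
        split_ifs with h
        · subst h; exact p.2
        · exact zero_mem _⟩
      map_add' := fun p q => Subtype.ext (by simp)
      map_smul' := fun r p => Subtype.ext (by
        ext m
        simp only [SetLike.val_smul, RingHom.id_apply, coeff_monomial, coeff_smul]
        split_ifs <;> simp) }
  have : Module.Finite ℝ c.Quotient := by
    refine Module.Finite.of_surjective
      ((c.mkₐ ℝ).toLinearMap ∘ₗ LinearMap.lsum ℝ (fun n : Fin (N + 1) => ↥(V ^ (n : ℕ))) ℝ j) ?_
    intro z
    obtain ⟨F, rfl⟩ := c.mkₐ_surjective (α := ℝ) z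
    refine ⟨fun n => ⟨coeff n F.1, F.2 n⟩, (RingCon.eq c).2 fun m hm => ?_⟩
    simp only [LinearMap.lsum_apply, LinearMap.coe_sum, Finset.sum_apply, LinearMap.comp_apply,
      LinearMap.proj_apply, AddSubmonoidClass.coe_finsetSum, map_sum]
    rw [Finset.sum_eq_single ⟨m, by omega⟩ (fun n _ hn => ?_) (by simp)]
    · exact coeff_monomial_same _ _
    · exact (coeff_monomial _ _ _).trans (if_neg fun h => hn (Fin.ext h.symm))
  obtain ⟨A, i1, i2, i3, -, ⟨e⟩⟩ := exists_banach c.Quotient
  exact ⟨A, i1, i2, i3, e.toAlgHom.comp (c.mkₐ ℝ), fun F G =>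
    e.injective.eq_iff.trans (RingCon.eq c)⟩

variable {A : Type} [Ring A] [Algebra ℝ A] {N : ℕ} {π : Gr V →ₐ[ℝ] A}

theorem Mod.nil (h : Mod N π) (p q : V) : Nil N (π (xc p)) (π (xc q)) := fun u hu => by
  rw [← wd_map, ← map_zero π]
  refine (h _ _).2 fun n hn => ?_
  rw [wd_xc, coeff_X_pow_mul', if_neg (by omega)]
  simp

theorem Mod.tr_eq (h : Mod N π) (Φ : List Bool → ℝ) (p q : V) :
    tr Φ N (π (xc p)) (π (xc q)) = π ⟨ser Φ (p : B) q, ser_mem Φ p.2 q.2⟩ := by
  rw [← tr_map]
  refine (h _ _).2 fun n hn => ?_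
  simp only [tr, AddSubmonoidClass.coe_finsetSum, map_sum, SetLike.val_smul, coeff_smul, wd_xc,
    List.Vector.toList_length, ser, coeff_mk, coeff_X_pow_mul', coeff_C]
  rw [Finset.sum_eq_single n (fun m _ hm => Finset.sum_eq_zero fun u _ => ?_)
    (fun h => absurd (Finset.mem_range.2 (by omega)) h)]
  · simp
  · split_ifs with h1 h2
    · omega
    · simp
    · simp

theorem coeff_ser_smul (Φ : List Bool → ℝ) (T : ℝ) (p q : B) (n : ℕ) :
    coeff n (ser Φ (T • p) (T • q)) = T ^ n • coeff n (ser Φ p q) := by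
  simp only [ser, coeff_mk, wd_smul, List.Vector.toList_length, Finset.smul_sum, smul_comm (T ^ n)]

end Pool.Agent.KZ
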