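import Mathlib.Analysis.ODE.ExistUnique
import Pool.Agent.Lib.KZ.Blue

set_option autoImplicit false

noncomputable section

open Set Filter Topology Asymptotics NormedSpace

namespace Pool.Agent.KZ.K5

variable {A : Type} [NormedRing A] [NormedAlgebra ℝ A] [CompleteSpace A]

theorem exp_add' {x y : A} (h : Commute x y) : exp (x + y) = exp x * exp y :=
  exp_add_of_commute_of_mem_ball (𝕂 := ℝ) h
    ((expSeries_radius_eq_top ℝ A).symm ▸ edist_lt_top _ _)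
    ((expSeries_radius_eq_top ℝ A).symm ▸ edist_lt_top _ _)

theorem exp_mul_neg (t : ℝ) (a : A) : exp (t • a) * exp (-t • a) = 1 := by
  rw [← exp_add' (((Commute.refl a).smul_left t).smul_right (-t)), ← add_smul, add_neg_cancel,
    zero_smul, exp_zero]

theorem exp_neg_mul (t : ℝ) (a : A) : exp (-t • a) * exp (t • a) = 1 := by
  rw [← exp_add' (((Commute.refl a).smul_left (-t)).smul_right t), ← add_smul, neg_add_cancel,
    zero_smul, exp_zero]

theorem isUnit_exp_smul (t : ℝ) (a : A) : IsUnit (exp (t • a)) :=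
  ⟨⟨exp (t • a), exp (-t • a), exp_mul_neg t a, exp_neg_mul t a⟩, rfl⟩

theorem norm_exp_le (x : A) : ‖exp x‖ ≤ (‖(1 : A)‖ + 1) * Real.exp ‖x‖ := by
  have h1 := exp_series_hasSum_exp' (𝕂 := ℝ) x
  have h2 := (exp_series_hasSum_exp' (𝕂 := ℝ) ‖x‖).mul_left (‖(1 : A)‖ + 1)
  rw [← Real.exp_eq_exp_ℝ] at h2
  refine h1.norm_le_of_bounded h2 fun n => ?_
  have hp : ‖x ^ n‖ ≤ (‖(1 : A)‖ + 1) * ‖x‖ ^ n := by
    rcases Nat.eq_zero_or_pos n with rfl | hn
    · simp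
    · have := norm_pow_le' x hn
      have h0 : 0 ≤ ‖(1 : A)‖ * ‖x‖ ^ n := by positivity
      linarith
  rw [norm_smul, smul_eq_mul, Real.norm_eq_abs, abs_of_nonneg (by positivity)]
  calc _ ≤ ((n.factorial : ℝ))⁻¹ * ((‖(1 : A)‖ + 1) * ‖x‖ ^ n) := by gcongr
    _ = _ := by ring

theorem norm_exp_log_le {a : A} (ha : ‖a‖ ≤ 1 / 4) {z t : ℝ} (hz : z ∈ Ioo (0 : ℝ) 1)
    (ht : |t| = |Real.log z|) :
    ‖exp (t • a)‖ ≤ (‖(1 : A)‖ + 1) * Real.exp (-Real.log z / 4) := by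
  refine (norm_exp_le _).trans ?_
  have hl : Real.log z < 0 := Real.log_neg hz.1 hz.2
  gcongr
  rw [norm_smul, Real.norm_eq_abs, ht, abs_of_neg hl]
  nlinarith [norm_nonneg a]

/-- Conjugating an `O(z)` term by `z ^ a` leaves it small. -/
theorem conj_tendsto {a a' : A} (ha : ‖a‖ ≤ 1 / 4) (ha' : ‖a'‖ ≤ 1 / 4) {R : ℝ → A}
    (hR : R =O[𝓝[>] 0] fun z : ℝ => z) :
    Tendsto (fun z => exp (-Real.log z • a) * R z * exp (Real.log z • a')) (𝓝[>] 0) (𝓝 0) := by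
  obtain ⟨c, hc0, hc⟩ := hR.exists_pos
  rw [IsBigOWith_def] at hc
  set K := ‖(1 : A)‖ + 1 with hK
  have hK0 : 0 ≤ K := by positivity
  have lim : Tendsto (fun z : ℝ => K * K * c * Real.exp (Real.log z / 2)) (𝓝[>] 0) (𝓝 0) := by
    have := (Real.tendsto_exp_atBot.comp
      (Real.tendsto_log_nhdsGT_zero.atBot_div_const (by norm_num : (0 : ℝ) < 2))).const_mul
      (K * K * c)
    simpa using this
  refine squeeze_zero_norm' ?_ lim
  filter_upwards [hc, Ioo_mem_nhdsGT (by norm_num : (0 : ℝ) < 1)] with z h1 hz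
  have e1 := norm_exp_log_le ha hz (t := -Real.log z) (abs_neg _)
  have e2 := norm_exp_log_le ha' hz (t := Real.log z) rfl
  rw [Real.norm_eq_abs, abs_of_pos hz.1] at h1
  have e3 : Real.exp (-Real.log z / 4) * z * Real.exp (-Real.log z / 4) =
      Real.exp (Real.log z / 2) := by
    conv_lhs => rw [← Real.exp_log hz.1]
    rw [Real.log_exp, ← Real.exp_add, ← Real.exp_add]
    congr 1
    ring
  calc _ ≤ ‖exp (-Real.log z • a)‖ * ‖R z‖ * ‖exp (Real.log z • a')‖ :=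
        (norm_mul_le _ _).trans (by gcongr; exact norm_mul_le _ _)
    _ ≤ (K * Real.exp (-Real.log z / 4)) * (c * z) * (K * Real.exp (-Real.log z / 4)) := by
        have := hz.1.le
        gcongr
    _ = K * K * c * (Real.exp (-Real.log z / 4) * z * Real.exp (-Real.log z / 4)) := by ring
    _ = _ := by rw [e3]

/-- The edge limit. -/
theorem edge_lim {b P Q C : A} (hb : ‖b‖ ≤ 1 / 4) {F G : ℝ → A}
    (hF : (fun y => F y - P) =O[𝓝[>] 0] fun z : ℝ => z)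
    (hG : (fun y => G y - Q) =O[𝓝[>] 0] fun z : ℝ => z) (hP : Commute P b) (hQ : Commute Q b)
    (h : ∀ y ∈ Ioo (0 : ℝ) 1, F y * exp (Real.log y • b) = G y * exp (Real.log y • b) * C) :
    P = Q * C := by
  have l1 := (conj_tendsto hb hb hF).const_add P
  have l2 := ((conj_tendsto hb hb hG).const_add Q).mul_const C
  rw [add_zero] at l1 l2
  refine tendsto_nhds_unique_of_eventuallyEq l1 l2 ?_
  filter_upwards [Ioo_mem_nhdsGT (by norm_num : (0 : ℝ) < 1)] with y hy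
  have k : ∀ X : A, Commute X b → exp (-Real.log y • b) * X * exp (Real.log y • b) = X := by
    intro X hX
    rw [mul_assoc, ((hX.smul_right (Real.log y)).exp_right).eq, ← mul_assoc, exp_neg_mul, one_mul]
  have := congrArg (fun t => exp (-Real.log y • b) * t) (h y hy)
  simp only [mul_sub, sub_mul, k P hP, k Q hQ, add_sub_cancel]
  simpa only [mul_assoc] using this

omit [CompleteSpace A] in
/-- Uniqueness for a linear equation on `(0, 1)`. -/
theorem ode_zero {M k : ℝ → A} (hM : ContinuousOn M (Ioo 0 1))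
    (hk : ∀ t ∈ Ioo (0 : ℝ) 1, HasDerivAt k (M t * k t) t) {t₀ : ℝ} (h0 : t₀ ∈ Ioo (0 : ℝ) 1)
    (hz : k t₀ = 0) : ∀ t ∈ Ioo (0 : ℝ) 1, k t = 0 := by
  intro t ht
  have hm : 0 < min t t₀ := lt_min ht.1 h0.1
  have hx : max t t₀ < 1 := max_lt ht.2 h0.2
  have hsub : Icc (min t t₀ / 2) ((1 + max t t₀) / 2) ⊆ Ioo (0 : ℝ) 1 := fun s hs =>
    ⟨by linarith [hs.1], by linarith [hs.2]⟩
  obtain ⟨K, hK⟩ := isCompact_Icc.exists_bound_of_continuousOn (hM.mono hsub)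
  have key := ODE_solution_unique_of_mem_Ioo (v := fun s x => M s * x) (s := fun _ => univ)
    (K := Real.toNNReal K) (a := min t t₀ / 2) (b := (1 + max t t₀) / 2) (t₀ := t₀) (f := k)
    (g := fun _ => 0) (fun s hs => by
      refine (LipschitzWith.of_dist_le_mul fun x y => ?_).lipschitzOnWith
      rw [dist_eq_norm, dist_eq_norm, ← mul_sub]
      refine (norm_mul_le _ _).trans ?_
      gcongr
      exact (hK s (Ioo_subset_Icc_self hs)).trans (Real.le_coe_toNNReal K))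
    ⟨by linarith [min_le_right t t₀], by linarith [le_max_right t t₀]⟩
    (fun s hs => ⟨hk s (hsub (Ioo_subset_Icc_self hs)), trivial⟩)
    (fun s _ => ⟨by simpa using hasDerivAt_const s (0 : A), trivial⟩) hz
  exact key ⟨by linarith [min_le_left t t₀], by linarith [le_max_left t t₀]⟩

omit [CompleteSpace A] in
theorem kz_cont (a b : A) :
    ContinuousOn (fun z : ℝ => z⁻¹ • a + (z - 1)⁻¹ • b) (Ioo 0 1) :=
  ((continuousOn_id.inv₀ fun _ hz => hz.1.ne').smul continuousOn_const).add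
    (((continuousOn_id.sub continuousOn_const).inv₀ fun _ hz => sub_ne_zero.2 hz.2.ne).smul
      continuousOn_const)

omit [CompleteSpace A] in
/-- Two solutions are proportional as soon as they are at one point. -/
theorem ode_prop {a b C : A} {g h : ℝ → A}
    (hg : ∀ z ∈ Ioo (0 : ℝ) 1, HasDerivAt g ((z⁻¹ • a + (z - 1)⁻¹ • b) * g z) z)
    (hh : ∀ z ∈ Ioo (0 : ℝ) 1, HasDerivAt h ((z⁻¹ • a + (z - 1)⁻¹ • b) * h z) z)
    {t₀ : ℝ} (h0 : t₀ ∈ Ioo (0 : ℝ) 1) (he : g t₀ = h t₀ * C) :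
    ∀ t ∈ Ioo (0 : ℝ) 1, g t = h t * C := by
  intro t ht
  refine sub_eq_zero.1 (ode_zero (k := fun z => g z - h z * C) (kz_cont a b) (fun z hz => ?_) h0
    (sub_eq_zero.2 he) t ht)
  refine ((hg z hz).sub ((hh z hz).mul_const C)).congr_deriv ?_
  rw [mul_sub, mul_assoc]

omit [NormedAlgebra ℝ A] in
theorem unit_of_tendsto {l : Filter ℝ} {F : ℝ → A} (h : Tendsto F l (𝓝 1)) :
    ∀ᶠ z in l, IsUnit (F z) :=
  h.eventually (Units.isOpen.mem_nhds isUnit_one)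

/-- A normalised solution is a unit near `0`. -/
theorem sol_unit {a b : A} {g : ℝ → A} (hg : Sol a b g) : ∀ᶠ z in 𝓝[>] (0 : ℝ), IsUnit (g z) := by
  have h1 : Tendsto (fun z => g z * exp (-Real.log z • a) - 1) (𝓝[>] 0) (𝓝 0) :=
    hg.2.trans_tendsto (tendsto_id.mono_left nhdsWithin_le_nhds)
  have h2 : Tendsto (fun z => g z * exp (-Real.log z • a)) (𝓝[>] 0) (𝓝 1) := by
    simpa using h1.add_const 1
  filter_upwards [unit_of_tendsto h2] with z hz
  have := hz.mul (isUnit_exp_smul (Real.log z) a)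
  rwa [mul_assoc, exp_neg_mul, mul_one] at this

theorem sol_unit' {a b : A} {g : ℝ → A} (hg : Sol a b g) :
    ∃ z ∈ Ioo (0 : ℝ) 1, IsUnit (g z) :=
  let ⟨z, h1, h2⟩ := ((sol_unit hg).and (Ioo_mem_nhdsGT (by norm_num : (0 : ℝ) < 1))).exists
  ⟨z, h2, h1⟩

/-- Uniqueness of the normalised solution. -/
theorem sol_unique {a b : A} (ha : ‖a‖ ≤ 1 / 4) {g h : ℝ → A} (hg : Sol a b g) (hh : Sol a b h) :
    ∀ z ∈ Ioo (0 : ℝ) 1, g z = h z := by
  obtain ⟨z₀, hz₀, u, hu⟩ := sol_unit' hh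
  have e := ode_prop (C := ↑u⁻¹ * g z₀) hg.1 hh.1 hz₀ (by rw [← hu, Units.mul_inv_cancel_left])
  have k : (1 : A) = 1 * (↑u⁻¹ * g z₀) :=
    edge_lim ha hg.2 hh.2 (Commute.one_left a) (Commute.one_left a) fun y hy => by
      simp only [mul_assoc, exp_neg_mul, mul_one]
      exact e y hy
  intro z hz
  rw [e z hz, ← one_mul (↑u⁻¹ * g z₀), ← k, mul_one]

/-- The zero lemma. -/
theorem sol_zero {a b : A} (ha : ‖a‖ ≤ 1 / 4) {g k : ℝ → A} (hg : Sol a b g)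
    (hk : ∀ z ∈ Ioo (0 : ℝ) 1, HasDerivAt k ((z⁻¹ • a + (z - 1)⁻¹ • b) * k z) z)
    (hO : (fun z => k z * exp (-Real.log z • a)) =O[𝓝[>] 0] fun z : ℝ => z) :
    ∀ z ∈ Ioo (0 : ℝ) 1, k z = 0 := by
  have h2 : Sol a b (fun z => g z + k z) := by
    refine ⟨fun z hz => ((hg.1 z hz).add (hk z hz)).congr_deriv (by rw [mul_add]), ?_⟩
    refine (hg.2.add hO).congr_left fun z => ?_
    rw [add_mul]
    abel
  intro z hz
  simpa using sol_unique ha h2 hg z hz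

omit [NormedAlgebra ℝ A] [CompleteSpace A] in
theorem sm_le {a : A} (h : Sm a) : ‖a‖ ≤ 1 / 4 := le_trans h (by norm_num)

omit [CompleteSpace A] in
/-- The reflected equation. -/
theorem refl_deriv {a b : A} {g : ℝ → A}
    (hg : ∀ z ∈ Ioo (0 : ℝ) 1, HasDerivAt g ((z⁻¹ • b + (z - 1)⁻¹ • a) * g z) z) :
    ∀ z ∈ Ioo (0 : ℝ) 1,
      HasDerivAt (fun t => g (1 - t)) ((z⁻¹ • a + (z - 1)⁻¹ • b) * g (1 - z)) z := by
  intro z hz
  have h1 := (hg (1 - z) ⟨by linarith [hz.2], by linarith [hz.1]⟩).scomp z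
    ((hasDerivAt_id z).const_sub 1)
  refine h1.congr_deriv ?_
  rw [← smul_mul_assoc]
  congr 1
  have e1 : (1 - z)⁻¹ = -(z - 1)⁻¹ := by rw [← inv_neg, neg_sub]
  have e2 : (1 - z - 1)⁻¹ = -z⁻¹ := by rw [← inv_neg]; congr 1; ring
  rw [e1, e2]
  module

/-- The associator exists as soon as the two solutions do. -/
theorem isPhi_of_sol {a b : A} {g₀ g₁ : ℝ → A} (h0 : Sol a b g₀) (h1 : Sol b a g₁) :
    ∃ C, ∀ z ∈ Ioo (0 : ℝ) 1, g₀ z = g₁ (1 - z) * C := by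
  obtain ⟨z₀, hz₀, u, hu⟩ := sol_unit' h1
  refine ⟨↑u⁻¹ * g₀ (1 - z₀), ode_prop h0.1 (refl_deriv h1.1) (t₀ := 1 - z₀)
    ⟨by linarith [hz₀.2], by linarith [hz₀.1]⟩ ?_⟩
  simp only [sub_sub_cancel]
  rw [← hu, Units.mul_inv_cancel_left]

theorem st_UQ : St_UQ := by
  intro A _ _ _ a b C C' ha hb ⟨g₀, g₁, h0, h1, h⟩ ⟨g₀', g₁', h0', h1', h'⟩
  obtain ⟨z₀, hz₀, hu⟩ := sol_unit' h1
  have hz : 1 - z₀ ∈ Ioo (0 : ℝ) 1 := ⟨by linarith [hz₀.2], by linarith [hz₀.1]⟩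
  have e1 := h _ hz
  have e2 := h' _ hz
  rw [sub_sub_cancel] at e1 e2
  rw [← sol_unique (sm_le ha) h0 h0' _ hz, ← sol_unique (sm_le hb) h1 h1' _ hz₀, e1] at e2
  exact hu.mul_left_cancel e2

theorem st_INV : St_INV := by
  intro A _ _ _ a b C C' ha hb ⟨g₀, g₁, h0, h1, h⟩ ⟨g₀', g₁', h0', h1', h'⟩
  obtain ⟨z₀, hz₀, hu⟩ := sol_unit' h1
  have hz : 1 - z₀ ∈ Ioo (0 : ℝ) 1 := ⟨by linarith [hz₀.2], by linarith [hz₀.1]⟩
  have e1 := h _ hz
  have e2 := h' _ hz₀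
  rw [sub_sub_cancel] at e1
  rw [← sol_unique (sm_le ha) h0 h1' _ hz, ← sol_unique (sm_le hb) h1 h0' _ hz₀, e1,
    mul_assoc] at e2
  exact hu.mul_left_cancel (e2.symm.trans (mul_one _).symm)

end Pool.Agent.KZ.K5
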