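import Pool.Agent.Lib.KZ.B_INV

set_option autoImplicit false

noncomputable section

open Set Filter Topology Asymptotics

namespace Pool.Agent.KZ

namespace INV

variable {A : Type} [NormedRing A] [NormedAlgebra ℝ A] [CompleteSpace A]

theorem exp_add {x y : A} (h : Commute x y) :
    NormedSpace.exp (x + y) = NormedSpace.exp x * NormedSpace.exp y :=
  NormedSpace.exp_add_of_commute_of_mem_ball (𝕂 := ℝ) h
    ((NormedSpace.expSeries_radius_eq_top ℝ A).symm ▸ edist_lt_top _ _)
    ((NormedSpace.expSeries_radius_eq_top ℝ A).symm ▸ edist_lt_top _ _)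

theorem sol_comm {a b s : A} (ha : ‖a‖ ≤ 1 / 4) (hb : ‖b‖ ≤ 1 / 4) (h1 : Commute s a)
    (h2 : Commute s b) {g : ℝ → A} (h : Sol a b g) : ∀ z ∈ Ioo (0 : ℝ) 1, Commute s (g z) := by
  intro z hz
  refine sub_eq_zero.1 (zero_lemma ha hb ha (k := fun z => s * g z - g z * s) ?_ ?_ z hz)
  · intro z hz
    have c : Commute s (z⁻¹ • a + (z - 1)⁻¹ • b) := (h1.smul_right _).add_right (h2.smul_right _)
    rw [mul_sub, ← mul_assoc, ← mul_assoc, ← c.eq, mul_assoc s]
    exact ((h.1 z hz).const_mul s).sub ((h.1 z hz).mul_const s)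
  · have hs : (fun _ : ℝ => s) =O[𝓝[>] 0] fun _ : ℝ => (1 : ℝ) := isBigO_const_const s one_ne_zero _
    refine (((hs.mul h.2).congr_right fun z => one_mul z).sub
      ((h.2.mul hs).congr_right fun z => mul_one z)).congr_left fun z => ?_
    have c : Commute s (NormedSpace.exp (-Real.log z • a)) := (h1.smul_right _).exp_right
    rw [sub_mul (s * g z), mul_assoc (g z), c.eq, mul_sub, sub_mul, mul_one, one_mul, mul_assoc,
      mul_assoc]
    abel

theorem sol_shift_left {a b s : A} (ha : ‖a‖ ≤ 1 / 4) (hb : ‖b‖ ≤ 1 / 4) (h1 : Commute s a)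
    (h2 : Commute s b) {g : ℝ → A} (h : Sol a b g) :
    Sol (a + s) b fun z => g z * NormedSpace.exp (Real.log z • s) := by
  refine ⟨fun z hz => ?_, h.2.congr_left fun z => ?_⟩
  · have d := (h.1 z hz).mul ((hasDerivAt_exp_smul_const' (𝕂 := ℝ) s (Real.log z)).scomp z
      (Real.hasDerivAt_log hz.1.ne'))
    have e : (z⁻¹ • a + (z - 1)⁻¹ • b) * g z * NormedSpace.exp (Real.log z • s) +
        g z * z⁻¹ • (s * NormedSpace.exp (Real.log z • s)) =
        (z⁻¹ • (a + s) + (z - 1)⁻¹ • b) * (g z * NormedSpace.exp (Real.log z • s)) := by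
      rw [mul_smul_comm, ← mul_assoc (g z), ← (sol_comm ha hb h1 h2 h z hz).eq]
      simp only [smul_add, add_mul, smul_mul_assoc, mul_assoc]
      abel
    rw [← e]
    exact d
  · rw [mul_assoc, ← exp_add (((Commute.refl s).add_right h1).smul_left _ |>.smul_right _ |>.symm
      |>.symm |> fun c => by rwa [add_comm s a] at c)]
    congr 3
    rw [smul_add, neg_smul _ s]
    abel

theorem sol_shift_right {a b s : A} (ha : ‖a‖ ≤ 1 / 4) (hb : ‖b‖ ≤ 1 / 4) (h1 : Commute s a)
    (h2 : Commute s b) {g : ℝ → A} (h : Sol a b g) :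
    Sol a (b + s) fun z => g z * NormedSpace.exp (Real.log (1 - z) • s) := by
  have dE : ∀ z : ℝ, z < 1 → HasDerivAt (fun z => NormedSpace.exp (Real.log (1 - z) • s))
      ((z - 1)⁻¹ • (s * NormedSpace.exp (Real.log (1 - z) • s))) z := by
    intro z hz
    have d := (hasDerivAt_exp_smul_const' (𝕂 := ℝ) s (Real.log (1 - z))).scomp z
      (((hasDerivAt_id z).const_sub 1).log (sub_pos.2 hz).ne')
    have e : (-1 : ℝ) / (1 - id z) = (z - 1)⁻¹ := by
      rw [id, ← neg_sub z, neg_div_neg_eq, one_div]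
    rw [e] at d
    exact d
  refine ⟨fun z hz => ?_, ?_⟩
  · have d := (h.1 z hz).mul (dE z hz.2)
    have e : (z⁻¹ • a + (z - 1)⁻¹ • b) * g z * NormedSpace.exp (Real.log (1 - z) • s) +
        g z * (z - 1)⁻¹ • (s * NormedSpace.exp (Real.log (1 - z) • s)) =
        (z⁻¹ • a + (z - 1)⁻¹ • (b + s)) * (g z * NormedSpace.exp (Real.log (1 - z) • s)) := by
      rw [mul_smul_comm, ← mul_assoc (g z), ← (sol_comm ha hb h1 h2 h z hz).eq]
      simp only [smul_add, add_mul, smul_mul_assoc, mul_assoc]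
      abel
    rw [← e]
    exact d
  · have d0 := dE 0 zero_lt_one
    have o1 := (d0.continuousAt.tendsto.isBigO_one ℝ).mono (nhdsWithin_le_nhds (s := Ioi 0))
    have o2 := d0.isBigO_sub.mono (nhdsWithin_le_nhds (s := Ioi 0))
    refine (((h.2.mul o1).congr_right fun z => mul_one z).add
      (o2.congr_right fun z => sub_zero z)).congr_left fun z => ?_
    have c : Commute (NormedSpace.exp (Real.log (1 - z) • s))
        (NormedSpace.exp (-Real.log z • a)) := ((h1.smul_left _).smul_right _).exp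
    rw [sub_zero, Real.log_one, zero_smul, NormedSpace.exp_zero, mul_assoc (g z) _
      (NormedSpace.exp (-Real.log z • a)), c.eq, sub_mul, one_mul, mul_assoc]
    abel

end INV

open INV

theorem st_SHIFT57 : St_SHIFT := by
  intro A _ _ _ a b s C ha hb h1 h2 h
  obtain ⟨g₀, g₁, h₀, h₁, e⟩ := h
  have ha' := sm_le ha
  have hb' := sm_le hb
  have hC : Commute s C := by
    obtain ⟨z, hz, hu⟩ := exists_unit h₁
    have hz' : 1 - z ∈ Ioo (0 : ℝ) 1 := ⟨sub_pos.2 hz.2, sub_lt_self _ hz.1⟩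
    have e1 := e _ hz'
    rw [sub_sub_cancel] at e1
    refine hu.mul_left_cancel ?_
    rw [← mul_assoc, ← (sol_comm hb' ha' h2 h1 h₁ z hz).eq, mul_assoc, ← e1,
      (sol_comm ha' hb' h1 h2 h₀ _ hz').eq, e1, mul_assoc]
  refine ⟨⟨_, _, sol_shift_left ha' hb' h1 h2 h₀, sol_shift_right hb' ha' h2 h1 h₁,
    fun z hz => ?_⟩, ⟨_, _, sol_shift_right ha' hb' h1 h2 h₀, sol_shift_left hb' ha' h2 h1 h₁,
    fun z hz => ?_⟩⟩
  · rw [e z hz, sub_sub_cancel, mul_assoc, mul_assoc, ((hC.smul_left _).exp_left).eq]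
  · rw [e z hz, mul_assoc, mul_assoc, ((hC.smul_left _).exp_left).eq]

end Pool.Agent.KZ
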