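import Pool.Agent.Lib.KZ.Blue
import Pool.Agent.Lib.DD.Tr55

set_option autoImplicit false

noncomputable section

namespace Pool.Agent.KZ.H55

open Pool.Agent.DR Pool.Agent.Lib.DD.H55

theorem bp (hE : St_EX) (hI : St_INV) (hS : St_SHIFT) (hP : St_PENT) :
    BP (fun _ _ _ _ => IsPhi) (1 / 192) := by
  intro A _ _ _ T D1 D2 D3 D4 D5 a0 a1 c b0 b1 h1 h2 h3 h4 h5
  have s1 : ∀ {x : A}, ‖x‖ ≤ 1 / 192 → Sm x := fun h => h.trans (by norm_num)
  have s2 : ∀ {x y : A}, ‖x‖ ≤ 1 / 192 → ‖y‖ ≤ 1 / 192 → Sm (x + y) := fun h h' =>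
    (norm_add_le _ _).trans (by linarith)
  have s3 : ∀ {x y z : A}, ‖x‖ ≤ 1 / 192 → ‖y‖ ≤ 1 / 192 → ‖z‖ ≤ 1 / 192 → Sm (x + y + z) :=
    fun h h' h'' => norm_add₃_le.trans (by linarith)
  have ea : T.a0 + T.c + T.b0 = T.a0 + T.b0 + T.c := by abel
  have ed : T.c + T.b1 + T.a1 = T.a1 + T.b1 + T.c := by abel
  have k1 := (hS A _ _ _ _ (s1 b0) (s2 c b1) T.h7.symm T.h6 h1).2
  have k2 := (hS A _ _ _ _ (s2 a0 c) (s1 a1) T.h1 T.h7 h2).1
  have k4 := (hS A _ _ _ _ (s3 a0 b0 c) (s2 a1 b1) (T.h3.add_right (Commute.refl _)) T.h4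
    (hS A _ _ _ _ (s2 a0 b0) (s2 a1 b1) T.h3 T.h4 h4).1).2
  rw [ed] at k1
  rw [ea] at k2
  obtain ⟨C3, g3⟩ := hE A _ _ (s3 a1 b1 c) (s1 b0)
  obtain ⟨C4, g4⟩ := hE A _ _ (s1 a1) (s3 a0 b0 c)
  obtain ⟨C5, g5⟩ := hE A _ _ (s1 c) (s1 b0)
  have i1 := hI A _ _ _ _ (s1 b0) (s3 a1 b1 c) k1 g3
  have i2 := hI A _ _ _ _ (s3 a0 b0 c) (s1 a1) k2 g4
  have i5 := hI A _ _ _ _ (s1 c) (s1 b0) g5 h5
  have p := hP A _ _ _ _ _ _ _ _ _ _ (s3 a0 b0 c) (s1 c) (s3 a1 b1 c) (s1 a1) (s1 b0)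
    (T.h3.add_right (Commute.refl _)).symm (T.h4.add_right (Commute.refl _))
    (ed ▸ (T.h6.add_right (Commute.refl _)).symm) T.h7.symm
    (ea ▸ T.h1.add_right (Commute.refl _))
    (by linear_combination (norm := noncomm_ring) T.h7.eq + T.h3.eq - T.h8.eq - T.h4.eq)
    k4 h3 g3 g4 h5
  calc D1 * D2 = D1 * D2 * C5 * (D5 * C4 * C3 * D3 * D4) * D5 := by
        rw [p, mul_one, mul_assoc, i5, mul_one]
    _ = D1 * (D2 * (C5 * D5) * C4) * C3 * D3 * D4 * D5 := by simp only [mul_assoc]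
    _ = D3 * D4 * D5 := by rw [i5, mul_one, i2, mul_one, i1, one_mul]

theorem tr_eq {B : Type} [Ring B] [Algebra ℝ B] (Φ : List Bool → ℝ) (N : ℕ) (a b : B) :
    tr Φ N a b = ev N Φ a b := by
  simp only [tr, ev, W, Finset.sum_map]
  rfl

theorem pentagon_of_pent {R : Type} [CommRing R] {Φ : List Bool → R} (h : Pent Φ) :
    Pentagon Φ := by
  have sy : ∀ i j, tt R i j = tt R j i := fun i j => RingQuot.mkAlgHom_rel R (Rel.symm i j)
  have tri : ∀ i j k : Fin 4, [i, j, k].Nodup → Commute (tt R i j) (tt R i k + tt R j k) :=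
    fun i j k h => by
      have := RingQuot.mkAlgHom_rel R (Rel.tri (R := R) i j k h)
      rw [map_mul, map_mul, map_add] at this
      exact this
  have far : ∀ i j k l : Fin 4, [i, j, k, l].Nodup → Commute (tt R i j) (tt R k l) :=
    fun i j k l h => by
      have := RingQuot.mkAlgHom_rel R (Rel.far (R := R) i j k l h)
      rw [map_mul, map_mul] at this
      exact this
  have := h _ ⟨tt R 0 2, tt R 2 3, tt R 1 2, tt R 0 1, tt R 1 3, tri 0 1 2 (by decide),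
    sy 2 1 ▸ tri 0 2 1 (by decide),
    by rw [add_comm, sy 0 1, sy 0 2]; exact tri 1 2 0 (by decide),
    by rw [add_comm]; exact tri 1 2 3 (by decide), sy 3 2 ▸ tri 1 3 2 (by decide),
    by rw [sy 1 2, sy 1 3]; exact tri 2 3 1 (by decide), far 0 1 2 3 (by decide),
    far 0 2 1 3 (by decide)⟩
  rw [Pentagon, add_comm (tt R 0 1) (tt R 0 2), add_comm (tt R 1 3) (tt R 2 3)]
  exact this

theorem pent_of_univ (hE : St_EX) (hI : St_INV) (hS : St_SHIFT) (hP : St_PENT)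
    {Φ : List Bool → ℝ} (h : Univ Φ) : Pent Φ :=
  pent_of_U (by norm_num) (bp hE hI hS hP) fun N A _ _ _ a b hn =>
    tr_eq Φ N a b ▸ h N A a b fun _ hu => hn.gt hu

theorem st_TRANS (hE : St_EX) (hI : St_INV) (hS : St_SHIFT) (hP : St_PENT) : St_TRANS :=
  fun _ h => pentagon_of_pent (pent_of_univ hE hI hS hP h)

end Pool.Agent.KZ.H55
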